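import Mathlib

set_option autoImplicit false
open MeasureTheory

namespace Pool.Agent.H63.Cee

/-- the planar kernel -/
noncomputable def ker (ε X : ℝ) (z w : ℂ) : ENNReal := ENNReal.ofReal ((X + ‖w - z‖) ^ (-(2 + ε)))

/-- the total mass constant -/
noncomputable def massC (ε : ℝ) : ℝ := ∫ w : ℂ, (1 + ‖w‖) ^ (-(2 + ε))

lemma massC_nonneg (ε : ℝ) : 0 ≤ massC ε := by
  unfold massC
  apply integral_nonneg
  intro w
  positivity

lemma ker_mass (ε X : ℝ) (hε : 0 < ε) (hX : 0 < X) (z : ℂ) :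
    ∫⁻ w : ℂ, ker ε X z w = ENNReal.ofReal (massC ε * X ^ (-ε)) := by
  have h1 : ∫⁻ w : ℂ, ker ε X z w = ∫⁻ w : ℂ, ENNReal.ofReal ((X + ‖w‖) ^ (-(2 + ε))) := by
    unfold ker
    exact lintegral_sub_right_eq_self (fun w : ℂ => ENNReal.ofReal ((X + ‖w‖) ^ (-(2 + ε)))) z
  rw [h1]
  have h2 : ∀ w : ℂ, (X + ‖w‖) ^ (-(2 + ε)) = X ^ (-(2 + ε)) * (1 + ‖X⁻¹ • w‖) ^ (-(2 + ε)) := by
    intro w
    rw [← Real.mul_rpow hX.le (by positivity)]
    congr 1
    rw [norm_smul, Real.norm_of_nonneg (by positivity)]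
    field_simp
  have hint : Integrable (fun w : ℂ => (1 + ‖w‖) ^ (-(2 + ε))) := by
    apply integrable_one_add_norm
    rw [Complex.finrank_real_complex]
    push_cast; linarith
  have hint2 : Integrable (fun w : ℂ => (1 + ‖X⁻¹ • w‖) ^ (-(2 + ε))) := by
    have := (integrable_comp_smul_iff (μ := (volume : Measure ℂ))
      (fun w : ℂ => (1 + ‖w‖) ^ (-(2 + ε))) (R := X⁻¹) (by positivity)).2 hint
    exact this
  have h3 : ∫⁻ w : ℂ, ENNReal.ofReal ((X + ‖w‖) ^ (-(2 + ε)))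
      = ENNReal.ofReal (∫ w : ℂ, (X + ‖w‖) ^ (-(2 + ε))) := by
    rw [ofReal_integral_eq_lintegral_ofReal]
    · simp_rw [h2]
      exact hint2.const_mul _
    · refine Filter.Eventually.of_forall ?_
      intro w
      simp only [Pi.zero_apply]
      positivity
  rw [h3]
  congr 1
  simp_rw [h2]
  rw [integral_const_mul]
  have h4 := Measure.integral_comp_smul (volume : Measure ℂ)
    (fun w : ℂ => (1 + ‖w‖) ^ (-(2 + ε))) X⁻¹
  rw [h4, Complex.finrank_real_complex]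
  unfold massC
  have h5 : |((X⁻¹) ^ 2)⁻¹| = X ^ 2 := by
    rw [abs_of_nonneg (by positivity)]
    field_simp
  rw [h5, smul_eq_mul]
  rw [← mul_assoc, mul_comm (∫ w : ℂ, (1 + ‖w‖) ^ (-(2 + ε)))]
  congr 1
  rw [← Real.rpow_natCast X 2, ← Real.rpow_add hX]
  congr 1
  push_cast
  ring

/-- geometric choice of a subdisc -/
lemma exists_sub_ball (z c : ℂ) (ρ x : ℝ) (hρ : 0 < ρ) (hx : ‖z - c‖ ≤ x) (hm : 0 < x - ρ) :
    ∃ w : ℂ, Metric.ball w (min (x - ρ) ρ) ⊆ Metric.ball c ρ ∧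
      ∀ w' ∈ Metric.ball w (min (x - ρ) ρ), ‖w' - z‖ ≤ 3 * (x - ρ) := by
  set m := x - ρ with hmdef
  set μ := min m ρ with hμ
  have hμ0 : 0 < μ := lt_min hm hρ
  have hμm : μ ≤ m := min_le_left _ _
  have hμρ : μ ≤ ρ := min_le_right _ _
  by_cases hcase : ‖z - c‖ ≤ ρ - μ
  · refine ⟨z, ?_, ?_⟩
    · intro w hw
      rw [Metric.mem_ball, dist_eq_norm] at hw ⊢
      calc ‖w - c‖ = ‖(w - z) + (z - c)‖ := by ring_nf
        _ ≤ ‖w - z‖ + ‖z - c‖ := norm_add_le _ _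
        _ < μ + (ρ - μ) := by linarith
        _ = ρ := by ring
    · intro w hw
      rw [Metric.mem_ball, dist_eq_norm] at hw
      linarith
  · rw [not_le] at hcase
    have hn : 0 < ‖z - c‖ := lt_of_le_of_lt (by linarith) hcase
    refine ⟨c + (((ρ - μ) / ‖z - c‖ : ℝ) : ℂ) * (z - c), ?_, ?_⟩
    · intro w hw
      rw [Metric.mem_ball, dist_eq_norm] at hw ⊢
      have : ‖(((ρ - μ) / ‖z - c‖ : ℝ) : ℂ) * (z - c)‖ = ρ - μ := by
        rw [norm_mul, Complex.norm_real, Real.norm_of_nonneg (div_nonneg (by linarith) hn.le)]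
        field_simp
      calc ‖w - c‖ = ‖(w - (c + (((ρ - μ) / ‖z - c‖ : ℝ) : ℂ) * (z - c)))
              + (((ρ - μ) / ‖z - c‖ : ℝ) : ℂ) * (z - c)‖ := by ring_nf
        _ ≤ _ := norm_add_le _ _
        _ < μ + (ρ - μ) := by rw [this]; linarith
        _ = ρ := by ring
    · intro w hw
      rw [Metric.mem_ball, dist_eq_norm] at hw
      have h2 : ‖(c + (((ρ - μ) / ‖z - c‖ : ℝ) : ℂ) * (z - c)) - z‖ = ‖z - c‖ - (ρ - μ) := by
        have : (c + (((ρ - μ) / ‖z - c‖ : ℝ) : ℂ) * (z - c)) - z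
            = (((ρ - μ) / ‖z - c‖ - 1 : ℝ) : ℂ) * (z - c) := by
          push_cast; ring
        rw [this, norm_mul, Complex.norm_real, Real.norm_eq_abs, abs_of_nonpos]
        · field_simp; ring
        · rw [sub_nonpos, div_le_one hn]; linarith
      calc ‖w - z‖ = ‖(w - (c + (((ρ - μ) / ‖z - c‖ : ℝ) : ℂ) * (z - c)))
              + ((c + (((ρ - μ) / ‖z - c‖ : ℝ) : ℂ) * (z - c)) - z)‖ := by ring_nf
        _ ≤ _ := norm_add_le _ _
        _ ≤ μ + (‖z - c‖ - (ρ - μ)) := by rw [h2]; linarith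
        _ ≤ 3 * m := by linarith

/-- comparison of one term with the integral over its disc -/
lemma term_le (ε : ℝ) (hε : 0 < ε) (z c : ℂ) (ρ x X : ℝ) (hρ : 0 < ρ) (hx : ‖z - c‖ ≤ x)
    (hX : 0 < X) (hm : X ≤ x - ρ) :
    ENNReal.ofReal (ρ ^ 2 / x ^ 2 * (x - ρ) ^ (-ε))
      ≤ ENNReal.ofReal (4 ^ (2 + ε)) * ∫⁻ w in Metric.ball c ρ, ker ε X z w := by
  have hm0 : 0 < x - ρ := lt_of_lt_of_le hX hm
  obtain ⟨w, hw1, hw2⟩ := exists_sub_ball z c ρ x hρ hx hm0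
  set m := x - ρ with hmdef
  set μ := min m ρ with hμ
  have hμ0 : 0 < μ := lt_min hm0 hρ
  have hx0 : 0 < x := by linarith
  have h1 : ENNReal.ofReal ((4 * m) ^ (-(2 + ε))) * (ENNReal.ofReal μ ^ 2 * (NNReal.pi : ENNReal))
      ≤ ∫⁻ w in Metric.ball c ρ, ker ε X z w := by
    calc ENNReal.ofReal ((4 * m) ^ (-(2 + ε))) * (ENNReal.ofReal μ ^ 2 * (NNReal.pi : ENNReal))
        = ∫⁻ w' in Metric.ball w μ, ENNReal.ofReal ((4 * m) ^ (-(2 + ε))) := by
          rw [setLIntegral_const, Complex.volume_ball]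
      _ ≤ ∫⁻ w' in Metric.ball w μ, ker ε X z w' := by
          apply setLIntegral_mono
          · unfold ker
            fun_prop
          · intro w' hw'
            unfold ker
            apply ENNReal.ofReal_le_ofReal
            have := hw2 w' hw'
            have hn : 0 ≤ ‖w' - z‖ := norm_nonneg _
            apply Real.rpow_le_rpow_of_nonpos (by linarith) (by linarith) (by linarith)
      _ ≤ ∫⁻ w in Metric.ball c ρ, ker ε X z w := lintegral_mono_set hw1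
  refine le_trans ?_ (mul_le_mul_right h1 _)
  have hpi : (NNReal.pi : ENNReal) = ENNReal.ofReal Real.pi := by
    rw [ENNReal.ofReal, ← NNReal.coe_real_pi, Real.toNNReal_coe]
  rw [hpi, ← ENNReal.ofReal_pow hμ0.le, ← ENNReal.ofReal_mul (by positivity),
    ← ENNReal.ofReal_mul (by positivity), ← ENNReal.ofReal_mul (by positivity)]
  apply ENNReal.ofReal_le_ofReal
  have e1 : (4 * m) ^ (-(2 + ε)) = 4 ^ (-(2 + ε)) * (m ^ (-(2:ℝ)) * m ^ (-ε)) := by
    rw [Real.mul_rpow (by norm_num) hm0.le, ← Real.rpow_add hm0]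
    congr 2; ring
  have e2 : (4:ℝ) ^ (2 + ε) * 4 ^ (-(2 + ε)) = 1 := by
    rw [← Real.rpow_add (by norm_num)]; simp
  have e3 : m ^ (-(2:ℝ)) = 1 / m ^ 2 := by
    rw [Real.rpow_neg hm0.le, one_div]; norm_cast
  rw [e1, e3]
  have e4 : (4:ℝ) ^ (2 + ε) * (4 ^ (-(2 + ε)) * (1 / m ^ 2 * m ^ (-ε)) * (μ ^ 2 * Real.pi))
      = (4 ^ (2 + ε) * 4 ^ (-(2 + ε))) * (Real.pi * (μ ^ 2 / m ^ 2) * m ^ (-ε)) := by ring
  rw [e4, e2, one_mul]
  apply mul_le_mul_of_nonneg_right _ (by positivity)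
  have e5 : ρ ^ 2 / x ^ 2 ≤ μ ^ 2 / m ^ 2 := by
    rw [← div_pow, ← div_pow]
    apply pow_le_pow_left₀ (by positivity)
    rw [div_le_div_iff₀ hx0 hm0]
    rcases le_total m ρ with h | h
    · rw [hμ, min_eq_left h]
      nlinarith
    · rw [hμ, min_eq_right h]
      nlinarith
  have e6 : 1 ≤ Real.pi := by linarith [Real.pi_gt_three]
  nlinarith [show 0 ≤ μ ^ 2 / m ^ 2 by positivity]

/-- Packing sum. -/
theorem packing_sum (ε : ℝ) (hε : 0 < ε) {ι : Type*} (c : ι → ℂ) (ρ x : ι → ℝ) (z : ℂ) (X : ℝ)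
    (hX : 0 < X) (hρ : ∀ i, 0 < ρ i) (hx : ∀ i, ‖z - c i‖ ≤ x i) (hm : ∀ i, X ≤ x i - ρ i)
    (hd : ∀ i j, i ≠ j → Disjoint (Metric.ball (c i) (ρ i)) (Metric.ball (c j) (ρ j))) :
    ∑' i, ENNReal.ofReal ((ρ i) ^ 2 / (x i) ^ 2 * (x i - ρ i) ^ (-ε))
      ≤ ENNReal.ofReal (4 ^ (2 + ε) * massC ε * X ^ (-ε)) := by
  rw [ENNReal.tsum_eq_iSup_sum]
  apply iSup_le
  intro s
  calc ∑ i ∈ s, ENNReal.ofReal ((ρ i) ^ 2 / (x i) ^ 2 * (x i - ρ i) ^ (-ε))
      ≤ ∑ i ∈ s, ENNReal.ofReal (4 ^ (2 + ε)) * ∫⁻ w in Metric.ball (c i) (ρ i), ker ε X z w :=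
        Finset.sum_le_sum (fun i _ => term_le ε hε z (c i) (ρ i) (x i) X (hρ i) (hx i) hX (hm i))
    _ = ENNReal.ofReal (4 ^ (2 + ε)) * ∑ i ∈ s, ∫⁻ w in Metric.ball (c i) (ρ i), ker ε X z w := by
        rw [Finset.mul_sum]
    _ = ENNReal.ofReal (4 ^ (2 + ε)) * ∫⁻ w in ⋃ i ∈ s, Metric.ball (c i) (ρ i), ker ε X z w := by
        rw [lintegral_biUnion_finset]
        · intro i _ j _ hij
          exact hd i j hij
        · intro i _
          exact measurableSet_ball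
    _ ≤ ENNReal.ofReal (4 ^ (2 + ε)) * ∫⁻ w, ker ε X z w := by
        apply mul_le_mul_right
        exact setLIntegral_le_lintegral _ _
    _ = ENNReal.ofReal (4 ^ (2 + ε) * massC ε * X ^ (-ε)) := by
        rw [ker_mass ε X hε hX, ← ENNReal.ofReal_mul (by positivity), mul_assoc]

end Pool.Agent.H63.Cee
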