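import Mathlib

set_option autoImplicit false
open Matrix

namespace Pool.Agent.H63.Cee

/-- The Lorentz form. -/
abbrev J : Matrix (Fin 4) (Fin 4) ℝ := Matrix.diagonal (![-1, 1, 1, 1] : Fin 4 → ℝ)

/-- the point `(z,h)` of the upper half-space, as a point of the hyperboloid. -/
noncomputable def emb (z : ℂ) (h : ℝ) : Fin 4 → ℝ :=
  ![(1 + (z.re ^ 2 + z.im ^ 2) + h ^ 2) / (2 * h), z.re / h, z.im / h,
    ((z.re ^ 2 + z.im ^ 2) + h ^ 2 - 1) / (2 * h)]

/-- Lorentz reflection in the vector `v`. -/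
def refl (v : Fin 4 → ℝ) : Matrix (Fin 4) (Fin 4) ℝ :=
  !![1 + 2 * v 0 * v 0, -2 * v 0 * v 1, -2 * v 0 * v 2, -2 * v 0 * v 3;
     2 * v 1 * v 0, 1 - 2 * v 1 * v 1, -2 * v 1 * v 2, -2 * v 1 * v 3;
     2 * v 2 * v 0, -2 * v 2 * v 1, 1 - 2 * v 2 * v 2, -2 * v 2 * v 3;
     2 * v 3 * v 0, -2 * v 3 * v 1, -2 * v 3 * v 2, 1 - 2 * v 3 * v 3]

/-- the unit normal of the hemisphere with centre `c` and radius `ρ`. -/
noncomputable def nrm (c : ℂ) (ρ : ℝ) : Fin 4 → ℝ :=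
  ![(1 + (c.re ^ 2 + c.im ^ 2) - ρ ^ 2) / (2 * ρ), c.re / ρ, c.im / ρ,
    ((c.re ^ 2 + c.im ^ 2) - ρ ^ 2 - 1) / (2 * ρ)]

lemma nrm_unit (c : ℂ) (ρ : ℝ) (hρ : ρ ≠ 0) :
    -(nrm c ρ 0) ^ 2 + (nrm c ρ 1) ^ 2 + (nrm c ρ 2) ^ 2 + (nrm c ρ 3) ^ 2 = 1 := by
  simp only [nrm, Matrix.cons_val]
  field_simp
  ring

lemma refl_mul_self (v : Fin 4 → ℝ) (hv : -(v 0) ^ 2 + (v 1) ^ 2 + (v 2) ^ 2 + (v 3) ^ 2 = 1) :
    refl v * refl v = 1 := by
  ext i j
  fin_cases i <;> fin_cases j <;>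
    simp [refl, Matrix.mul_apply, Fin.sum_univ_four] <;>
    first
      | linear_combination (-4 * v 0 * v 0) * hv
      | linear_combination (4 * v 0 * v 1) * hv
      | linear_combination (4 * v 0 * v 2) * hv
      | linear_combination (4 * v 0 * v 3) * hv
      | linear_combination (-4 * v 0 * v 1) * hv
      | linear_combination (-4 * v 0 * v 2) * hv
      | linear_combination (-4 * v 0 * v 3) * hv
      | linear_combination (4 * v 1 * v 1) * hv
      | linear_combination (4 * v 1 * v 2) * hv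
      | linear_combination (4 * v 1 * v 3) * hv
      | linear_combination (4 * v 2 * v 2) * hv
      | linear_combination (4 * v 2 * v 3) * hv
      | linear_combination (4 * v 3 * v 3) * hv

lemma refl_form (v : Fin 4 → ℝ) (hv : -(v 0) ^ 2 + (v 1) ^ 2 + (v 2) ^ 2 + (v 3) ^ 2 = 1) :
    (refl v)ᵀ * J * refl v = J := by
  ext i j
  fin_cases i <;> fin_cases j <;>
    simp [refl, J, Matrix.mul_apply, Fin.sum_univ_four, Matrix.diagonal_apply] <;>
    first
      | linear_combination (4 * v 0 * v 0) * hv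
      | linear_combination (4 * v 0 * v 1) * hv
      | linear_combination (4 * v 0 * v 2) * hv
      | linear_combination (4 * v 0 * v 3) * hv
      | linear_combination (-4 * v 0 * v 1) * hv
      | linear_combination (-4 * v 0 * v 2) * hv
      | linear_combination (-4 * v 0 * v 3) * hv
      | linear_combination (4 * v 1 * v 1) * hv
      | linear_combination (4 * v 1 * v 2) * hv
      | linear_combination (4 * v 1 * v 3) * hv
      | linear_combination (4 * v 2 * v 2) * hv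
      | linear_combination (4 * v 2 * v 3) * hv
      | linear_combination (4 * v 3 * v 3) * hv

/-- translation matrix -/
noncomputable def trans (u : ℂ) : Matrix (Fin 4) (Fin 4) ℝ :=
  !![1 + (u.re ^ 2 + u.im ^ 2) / 2, u.re, u.im, -((u.re ^ 2 + u.im ^ 2) / 2);
     u.re, 1, 0, -u.re;
     u.im, 0, 1, -u.im;
     (u.re ^ 2 + u.im ^ 2) / 2, u.re, u.im, 1 - (u.re ^ 2 + u.im ^ 2) / 2]

lemma trans_mul (u w : ℂ) : trans u * trans w = trans (u + w) := by
  ext i j
  fin_cases i <;> fin_cases j <;>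
    simp [trans, Matrix.mul_apply, Fin.sum_univ_four] <;> ring

lemma trans_zero : trans 0 = 1 := by
  ext i j
  fin_cases i <;> fin_cases j <;> simp [trans]

lemma trans_form (u : ℂ) : (trans u)ᵀ * J * trans u = J := by
  ext i j
  fin_cases i <;> fin_cases j <;>
    simp [trans, J, Matrix.mul_apply, Fin.sum_univ_four, Matrix.diagonal_apply] <;> ring

lemma trans_emb (u z : ℂ) (h : ℝ) (hh : h ≠ 0) : trans u *ᵥ emb z h = emb (z + u) h := by
  ext i
  fin_cases i <;>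
    simp [trans, emb, Matrix.mulVec, dotProduct, Fin.sum_univ_four] <;> field_simp <;> ring

/-- squared Euclidean distance in the upper half-space from `(z,h)` to `(c,0)`. -/
def dsq (c z : ℂ) (h : ℝ) : ℝ := (z.re - c.re) ^ 2 + (z.im - c.im) ^ 2 + h ^ 2

lemma dsq_pos (c z : ℂ) (h : ℝ) (hh : 0 < h) : 0 < dsq c z h := by
  unfold dsq; positivity

/-- planar part of the inversion -/
noncomputable def invZ (c : ℂ) (ρ : ℝ) (z : ℂ) (h : ℝ) : ℂ :=
  ⟨c.re + ρ ^ 2 * (z.re - c.re) / dsq c z h, c.im + ρ ^ 2 * (z.im - c.im) / dsq c z h⟩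

/-- height of the inversion -/
noncomputable def invH (c : ℂ) (ρ : ℝ) (z : ℂ) (h : ℝ) : ℝ := ρ ^ 2 * h / dsq c z h

lemma invH_pos (c : ℂ) (ρ : ℝ) (z : ℂ) (h : ℝ) (hρ : 0 < ρ) (hh : 0 < h) : 0 < invH c ρ z h := by
  have := dsq_pos c z h hh
  unfold invH; positivity

lemma dsq_inv (c : ℂ) (ρ : ℝ) (z : ℂ) (h : ℝ) (hh : 0 < h) :
    dsq c (invZ c ρ z h) (invH c ρ z h) = ρ ^ 4 / dsq c z h := by
  have hD := dsq_pos c z h hh
  have e : dsq c (invZ c ρ z h) (invH c ρ z h)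
      = (ρ ^ 4 * dsq c z h) / (dsq c z h) ^ 2 := by
    simp only [invZ, invH]
    rw [dsq]
    simp only
    rw [show c.re + ρ ^ 2 * (z.re - c.re) / dsq c z h - c.re = ρ ^ 2 * (z.re - c.re) / dsq c z h by ring,
      show c.im + ρ ^ 2 * (z.im - c.im) / dsq c z h - c.im = ρ ^ 2 * (z.im - c.im) / dsq c z h by ring]
    rw [div_pow, div_pow, div_pow, ← add_div, ← add_div]
    congr 1
    rw [dsq]; ring
  rw [e, sq, mul_div_mul_right _ _ hD.ne']

lemma refl_emb (c : ℂ) (ρ : ℝ) (z : ℂ) (h : ℝ) (hρ : 0 < ρ) (hh : 0 < h) :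
    refl (nrm c ρ) *ᵥ emb z h = emb (invZ c ρ z h) (invH c ρ z h) := by
  have hD := dsq_pos c z h hh
  have hD' : (z.re - c.re) ^ 2 + (z.im - c.im) ^ 2 + h ^ 2 ≠ 0 := hD.ne'
  ext i
  fin_cases i <;>
    simp [refl, nrm, emb, invZ, invH, dsq, Matrix.mulVec, dotProduct, Fin.sum_univ_four] <;>
    field_simp <;> ring

end Pool.Agent.H63.Cee
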