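import Mathlib

set_option autoImplicit false

namespace Pool.Agent.H63.Cee

/-- lattice point of level `n` -/
noncomputable def lat (n : ℕ) (a b : ℤ) : ℂ := ⟨(a : ℝ) / 2 ^ n, (b : ℝ) / 2 ^ n⟩

/-- discs of the first `n` levels -/
noncomputable def F (κ : ℝ) : ℕ → Set (ℂ × ℝ)
  | 0 => ∅
  | (n + 1) => F κ n ∪ {p | (∃ a b : ℤ, p.1 = lat n a b) ∧ p.2 = κ / 2 / 2 ^ n ∧
      ∀ q ∈ F κ n, p.2 + q.2 + p.2 / κ ≤ ‖p.1 - q.1‖}

/-- all discs -/
def BB (κ : ℝ) : Set (ℂ × ℝ) := ⋃ n, F κ n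

lemma F_mono_succ (κ : ℝ) (n : ℕ) : F κ n ⊆ F κ (n + 1) := by
  rw [F]; exact Set.subset_union_left

lemma F_mono (κ : ℝ) {m n : ℕ} (h : m ≤ n) : F κ m ⊆ F κ n := by
  induction h with
  | refl => exact subset_rfl
  | step _ ih => exact ih.trans (F_mono_succ κ _)

lemma F_radius (κ : ℝ) (hκ : 0 < κ) (n : ℕ) : ∀ q ∈ F κ n, κ / 2 ^ n ≤ q.2 ∧ q.2 ≤ κ / 2 := by
  induction n with
  | zero => intro q hq; simp [F] at hq
  | succ n ih =>
    intro q hq
    rw [F] at hq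
    rcases hq with hq | ⟨_, hq, _⟩
    · obtain ⟨h1, h2⟩ := ih q hq
      refine ⟨le_trans ?_ h1, h2⟩
      rw [pow_succ]
      apply div_le_div_of_nonneg_left hκ.le (by positivity)
      linarith [show (0:ℝ) < 2 ^ n by positivity]
    · rw [hq]
      constructor
      · rw [pow_succ]
        apply le_of_eq
        field_simp
      · apply div_le_self (by positivity)
        exact one_le_pow₀ (by norm_num)

lemma lat_sub_norm (n : ℕ) (a b a' b' : ℤ) (h : lat n a b ≠ lat n a' b') :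
    1 / 2 ^ n ≤ ‖lat n a b - lat n a' b'‖ := by
  have h2 : (0:ℝ) < 2 ^ n := by positivity
  by_cases ha : a = a'
  · have hb : b ≠ b' := by
      rintro rfl; subst ha; exact h rfl
    have h1 : |(lat n a b - lat n a' b').im| ≤ ‖lat n a b - lat n a' b'‖ := Complex.abs_im_le_norm _
    refine le_trans ?_ h1
    have : (lat n a b - lat n a' b').im = ((b - b' : ℤ) : ℝ) / 2 ^ n := by
      simp [lat]; ring
    rw [this, abs_div, abs_of_pos h2]
    apply div_le_div_of_nonneg_right _ h2.le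
    have : (1:ℤ) ≤ |b - b'| := Int.one_le_abs (sub_ne_zero.2 hb)
    exact_mod_cast this
  · have h1 : |(lat n a b - lat n a' b').re| ≤ ‖lat n a b - lat n a' b'‖ := Complex.abs_re_le_norm _
    refine le_trans ?_ h1
    have : (lat n a b - lat n a' b').re = ((a - a' : ℤ) : ℝ) / 2 ^ n := by
      simp [lat]; ring
    rw [this, abs_div, abs_of_pos h2]
    apply div_le_div_of_nonneg_right _ h2.le
    have : (1:ℤ) ≤ |a - a'| := Int.one_le_abs (sub_ne_zero.2 ha)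
    exact_mod_cast this

lemma F_sep (κ : ℝ) (hκ : 0 < κ) (hκ2 : κ ≤ 1 / 2) (n : ℕ) :
    ∀ p ∈ F κ n, ∀ q ∈ F κ n, p ≠ q → p.2 + q.2 + min p.2 q.2 / κ ≤ ‖p.1 - q.1‖ := by
  induction n with
  | zero => intro p hp; simp [F] at hp
  | succ n ih =>
    have h2 : (0:ℝ) < 2 ^ n := by positivity
    intro p hp q hq hpq
    rw [F] at hp hq
    rcases hp with hp | ⟨⟨a, b, hp1⟩, hp2, hp3⟩
    · rcases hq with hq | ⟨⟨a', b', hq1⟩, hq2, hq3⟩
      · exact ih p hp q hq hpq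
      · have h1 := hq3 p hp
        rw [norm_sub_rev]
        have : min p.2 q.2 / κ ≤ q.2 / κ := div_le_div_of_nonneg_right (min_le_right _ _) hκ.le
        linarith
    · rcases hq with hq | ⟨⟨a', b', hq1⟩, hq2, hq3⟩
      · have h1 := hp3 q hq
        have : min p.2 q.2 / κ ≤ p.2 / κ := div_le_div_of_nonneg_right (min_le_left _ _) hκ.le
        linarith
      · have hne : lat n a b ≠ lat n a' b' := by
          intro h
          apply hpq
          apply Prod.ext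
          · rw [hp1, hq1, h]
          · rw [hp2, hq2]
        have h3 := lat_sub_norm n a b a' b' hne
        rw [hp1, hq1]
        refine le_trans ?_ h3
        rw [hp2, hq2, min_self]
        have e : κ / 2 / 2 ^ n + κ / 2 / 2 ^ n + κ / 2 / 2 ^ n / κ = (κ + 1 / 2) / 2 ^ n := by
          field_simp; ring
        rw [e]
        apply div_le_div_of_nonneg_right _ h2.le
        linarith

lemma F_periodic (κ : ℝ) (n : ℕ) (a b : ℤ) :
    ∀ q ∈ F κ n, (q.1 + lat 0 a b, q.2) ∈ F κ n := by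
  induction n generalizing a b with
  | zero => intro q hq; simp [F] at hq
  | succ n ih =>
    intro q hq
    rw [F] at hq ⊢
    rcases hq with hq | ⟨⟨a', b', hq1⟩, hq2, hq3⟩
    · exact Or.inl (ih a b q hq)
    · refine Or.inr ⟨⟨a' + a * 2 ^ n, b' + b * 2 ^ n, ?_⟩, hq2, ?_⟩
      · simp only
        rw [hq1]
        apply Complex.ext
        · simp [lat]; field_simp
        · simp [lat]; field_simp
      · intro r hr
        have h1 := hq3 (r.1 + lat 0 (-a) (-b), r.2) (ih (-a) (-b) r hr)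
        simp only at h1 ⊢
        have e : q.1 + lat 0 a b - r.1 = q.1 - (r.1 + lat 0 (-a) (-b)) := by
          apply Complex.ext
          · simp [lat]; ring
          · simp [lat]; ring
        rw [e]; exact h1

lemma exists_lat (n : ℕ) (z : ℂ) : ∃ a b : ℤ, ‖z - lat n a b‖ ≤ 1 / 2 ^ n := by
  have h2 : (0:ℝ) < 2 ^ n := by positivity
  refine ⟨round (z.re * 2 ^ n), round (z.im * 2 ^ n), ?_⟩
  have h3 := abs_sub_round (z.re * 2 ^ n)
  have h4 := abs_sub_round (z.im * 2 ^ n)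
  refine le_trans (Complex.norm_le_abs_re_add_abs_im _) ?_
  have e1 : (z - lat n (round (z.re * 2 ^ n)) (round (z.im * 2 ^ n))).re
      = (z.re * 2 ^ n - round (z.re * 2 ^ n)) / 2 ^ n := by
    simp [lat]; field_simp
  have e2 : (z - lat n (round (z.re * 2 ^ n)) (round (z.im * 2 ^ n))).im
      = (z.im * 2 ^ n - round (z.im * 2 ^ n)) / 2 ^ n := by
    simp [lat]; field_simp
  rw [e1, e2, abs_div, abs_div, abs_of_pos h2, ← add_div]
  apply div_le_div_of_nonneg_right _ h2.le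
  linarith

lemma F_cover (κ : ℝ) (hκ : 0 < κ) (hκ2 : κ ≤ 1 / 2) (n : ℕ) (z : ℂ) :
    ∃ q ∈ F κ (n + 1), κ / 2 / 2 ^ n ≤ q.2 ∧ ‖z - q.1‖ ≤ q.2 + 2 / 2 ^ n := by
  have h2 : (0:ℝ) < 2 ^ n := by positivity
  obtain ⟨a, b, hab⟩ := exists_lat n z
  by_cases hc : ∀ q ∈ F κ n, κ / 2 / 2 ^ n + q.2 + κ / 2 / 2 ^ n / κ ≤ ‖lat n a b - q.1‖
  · refine ⟨(lat n a b, κ / 2 / 2 ^ n), ?_, le_rfl, ?_⟩
    · rw [F]
      exact Or.inr ⟨⟨a, b, rfl⟩, rfl, hc⟩
    · simp only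
      have : (0:ℝ) ≤ κ / 2 / 2 ^ n := by positivity
      have e : (2:ℝ) / 2 ^ n = 1 / 2 ^ n + 1 / 2 ^ n := by ring
      have e2 : (0:ℝ) < 1 / 2 ^ n := by positivity
      linarith
  · push Not at hc
    obtain ⟨q, hq, hq2⟩ := hc
    refine ⟨q, F_mono_succ κ n hq, ?_, ?_⟩
    · have := (F_radius κ hκ n q hq).1
      refine le_trans ?_ this
      apply div_le_div_of_nonneg_right _ h2.le
      linarith
    · have h3 : ‖z - q.1‖ ≤ ‖z - lat n a b‖ + ‖lat n a b - q.1‖ := norm_sub_le_norm_sub_add_norm_sub _ _ _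
      have e : κ / 2 / 2 ^ n + κ / 2 / 2 ^ n / κ = (κ / 2 + 1 / 2) / 2 ^ n := by field_simp
      have e2 : (κ / 2 + 1 / 2) / 2 ^ n ≤ 1 / 2 ^ n :=
        div_le_div_of_nonneg_right (by linarith) h2.le
      have e3 : (2:ℝ) / 2 ^ n = 1 / 2 ^ n + 1 / 2 ^ n := by ring
      linarith

lemma BB_radius (κ : ℝ) (hκ : 0 < κ) : ∀ q ∈ BB κ, 0 < q.2 ∧ q.2 ≤ κ / 2 := by
  intro q hq
  obtain ⟨n, hn⟩ := Set.mem_iUnion.1 hq
  have := F_radius κ hκ n q hn
  exact ⟨lt_of_lt_of_le (by positivity) this.1, this.2⟩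

lemma BB_sep (κ : ℝ) (hκ : 0 < κ) (hκ2 : κ ≤ 1 / 2) :
    ∀ p ∈ BB κ, ∀ q ∈ BB κ, p ≠ q → p.2 + q.2 + min p.2 q.2 / κ ≤ ‖p.1 - q.1‖ := by
  intro p hp q hq hpq
  obtain ⟨n, hn⟩ := Set.mem_iUnion.1 hp
  obtain ⟨m, hm⟩ := Set.mem_iUnion.1 hq
  exact F_sep κ hκ hκ2 (max n m) p (F_mono κ (le_max_left _ _) hn) q
    (F_mono κ (le_max_right _ _) hm) hpq

lemma BB_periodic (κ : ℝ) (a b : ℤ) : ∀ q ∈ BB κ, (q.1 + lat 0 a b, q.2) ∈ BB κ := by
  intro q hq
  obtain ⟨n, hn⟩ := Set.mem_iUnion.1 hq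
  exact Set.mem_iUnion.2 ⟨n, F_periodic κ n a b q hn⟩

lemma BB_base (κ : ℝ) (a b : ℤ) : (lat 0 a b, κ / 2) ∈ BB κ := by
  refine Set.mem_iUnion.2 ⟨1, ?_⟩
  rw [F]
  refine Or.inr ⟨⟨a, b, rfl⟩, by simp, ?_⟩
  intro q hq
  simp [F] at hq

lemma BB_disjoint (κ : ℝ) (hκ : 0 < κ) (hκ2 : κ ≤ 1 / 2) :
    ∀ p ∈ BB κ, ∀ q ∈ BB κ, p ≠ q → Disjoint (Metric.ball p.1 p.2) (Metric.ball q.1 q.2) := by
  intro p hp q hq hpq
  apply Metric.ball_disjoint_ball
  rw [dist_eq_norm]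
  have := BB_sep κ hκ hκ2 p hp q hq hpq
  have h1 := (BB_radius κ hκ p hp).1
  have h2 := (BB_radius κ hκ q hq).1
  have : 0 ≤ min p.2 q.2 / κ := div_nonneg (le_min h1.le h2.le) hκ.le
  linarith

end Pool.Agent.H63.Cee
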