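import Mathlib
import Pool.Agent.H63.Cee.Basic
import Pool.Agent.H63.Cee.Area
import Pool.Agent.H63.Cee.Packing

set_option autoImplicit false

namespace Pool.Agent.H63.Cee

open Classical in
lemma norm_le_sqrt_dsq (c z : ℂ) (h : ℝ) : ‖z - c‖ ≤ Real.sqrt (dsq c z h) := by
  apply Real.le_sqrt_of_sq_le
  rw [dsq, ← Complex.normSq_eq_norm_sq, Complex.normSq_apply]
  simp only [Complex.sub_re, Complex.sub_im]
  nlinarith [sq_nonneg h]

/-- lower bound for the distance from a point inside one hemisphere to another hemisphere -/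
lemma gap_lower (κ : ℝ) (hκ : 0 < κ) (hκ2 : κ ≤ 1 / 2) (B B' : ℂ × ℝ) (hB : B ∈ BB κ)
    (hB' : B' ∈ BB κ) (hne : B' ≠ B) (z : ℂ) (h : ℝ) :
    (B.2 - Real.sqrt (dsq B.1 z h)) + min B.2 B'.2 / κ ≤ Real.sqrt (dsq B'.1 z h) - B'.2 := by
  have h1 := norm_le_sqrt_dsq B.1 z h
  have h2 := norm_le_sqrt_dsq B'.1 z h
  have h3 := BB_sep κ hκ hκ2 B hB B' hB' (Ne.symm hne)
  have h4 : ‖B.1 - B'.1‖ ≤ ‖z - B.1‖ + ‖z - B'.1‖ := by
    calc ‖B.1 - B'.1‖ = ‖(z - B'.1) - (z - B.1)‖ := by ring_nf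
      _ ≤ _ := by rw [add_comm]; exact norm_sub_le _ _
  linarith

/-- the weight of a step from `(z,h)` into the hemisphere over `B'` -/
noncomputable def stepW (ε : ℝ) (B' : ℂ × ℝ) (z : ℂ) (h : ℝ) : ℝ :=
  B'.2 ^ 2 / dsq B'.1 z h * (2 * B'.2 / (dsq B'.1 z h - B'.2 ^ 2)) ^ ε

/-- the inside weight -/
noncomputable def inW (ε : ℝ) (B : ℂ × ℝ) (z : ℂ) (h : ℝ) : ℝ :=
  (2 * B.2 / (B.2 ^ 2 - dsq B.1 z h)) ^ ε

lemma stepW_le (ε : ℝ) (hε : 0 < ε) (B' : ℂ × ℝ) (hB' : 0 < B'.2) (z : ℂ) (h : ℝ) (hh : 0 < h)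
    (hm : 0 < Real.sqrt (dsq B'.1 z h) - B'.2) :
    stepW ε B' z h ≤ B'.2 ^ 2 / (Real.sqrt (dsq B'.1 z h)) ^ 2 *
      (Real.sqrt (dsq B'.1 z h) - B'.2) ^ (-ε) := by
  unfold stepW
  have hD := dsq_pos B'.1 z h hh
  set x := Real.sqrt (dsq B'.1 z h) with hx
  have hx2 : x ^ 2 = dsq B'.1 z h := Real.sq_sqrt hD.le
  have hx0 : 0 < x := Real.sqrt_pos.2 hD
  rw [← hx2]
  apply mul_le_mul_of_nonneg_left _ (by positivity)
  rw [Real.rpow_neg hm.le, ← Real.inv_rpow hm.le]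
  apply Real.rpow_le_rpow _ _ hε.le
  · apply div_nonneg (by positivity)
    nlinarith
  · rw [div_le_iff₀ (by nlinarith)]
    have : (x - B'.2)⁻¹ * (x ^ 2 - B'.2 ^ 2) = x + B'.2 := by
      field_simp; ring
    rw [this]; linarith

lemma stepW_le_small (ε κ : ℝ) (hε : 0 < ε) (hκ : 0 < κ) (B' : ℂ × ℝ) (hB' : 0 < B'.2) (z : ℂ)
    (h : ℝ) (hh : 0 < h)
    (hm : B'.2 / κ ≤ Real.sqrt (dsq B'.1 z h) - B'.2) :
    stepW ε B' z h ≤ (2 * κ) ^ ε * (B'.2 ^ 2 / (Real.sqrt (dsq B'.1 z h)) ^ 2 *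
      (Real.sqrt (dsq B'.1 z h) - B'.2) ^ (-ε)) := by
  unfold stepW
  have hD := dsq_pos B'.1 z h hh
  set x := Real.sqrt (dsq B'.1 z h) with hx
  have hx2 : x ^ 2 = dsq B'.1 z h := Real.sq_sqrt hD.le
  have hx0 : 0 < x := Real.sqrt_pos.2 hD
  have hm0 : 0 < x - B'.2 := lt_of_lt_of_le (by positivity) hm
  rw [← hx2]
  rw [mul_left_comm]
  apply mul_le_mul_of_nonneg_left _ (by positivity)
  rw [Real.rpow_neg hm0.le, ← Real.inv_rpow hm0.le, ← Real.mul_rpow (by positivity) (by positivity)]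
  apply Real.rpow_le_rpow _ _ hε.le
  · apply div_nonneg (by positivity)
    nlinarith
  · rw [div_le_iff₀ (by nlinarith)]
    have : 2 * κ * (x - B'.2)⁻¹ * (x ^ 2 - B'.2 ^ 2) = 2 * κ * (x + B'.2) := by
      field_simp; ring
    rw [this]
    rw [div_le_iff₀ hκ] at hm
    nlinarith

/-- the constant of the packing sum -/
noncomputable def CC (ε : ℝ) : ℝ := 4 ^ (2 + ε) * massC ε

lemma CC_nonneg (ε : ℝ) : 0 ≤ CC ε := mul_nonneg (by positivity) (massC_nonneg ε)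

theorem transfer (ε κ : ℝ) (hε : 0 < ε) (hκ : 0 < κ) (hκ2 : κ ≤ 1 / 2)
    (hκ3 : 2 * CC ε * (2 * κ) ^ ε ≤ 1 / 2) (B : ℂ × ℝ) (hB : B ∈ BB κ) (z : ℂ) (h : ℝ)
    (hh : 0 < h) (hin : dsq B.1 z h < B.2 ^ 2) :
    ∑' B' : {B' : ℂ × ℝ | B' ∈ BB κ ∧ B' ≠ B}, ENNReal.ofReal (stepW ε B' z h)
      ≤ ENNReal.ofReal (1 / 2 * inW ε B z h) := by
  have hD := dsq_pos B.1 z h hh
  have hr := BB_radius κ hκ B hB
  set y := Real.sqrt (dsq B.1 z h) with hy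
  have hy2 : y ^ 2 = dsq B.1 z h := Real.sq_sqrt hD.le
  have hy0 : 0 < y := Real.sqrt_pos.2 hD
  have hyB : y < B.2 := by
    rw [hy]; exact (Real.sqrt_lt' hr.1).2 hin
  set δ := B.2 - y with hδ
  have hδ0 : 0 < δ := by linarith
  have hδB : δ ≤ B.2 := by linarith
  let S1 : Set (ℂ × ℝ) := {B' | B' ∈ BB κ ∧ B' ≠ B ∧ B'.2 ≤ B.2}
  let S2 : Set (ℂ × ℝ) := {B' | B' ∈ BB κ ∧ B' ≠ B ∧ B.2 < B'.2}
  have hsub : {B' : ℂ × ℝ | B' ∈ BB κ ∧ B' ≠ B} ⊆ S1 ∪ S2 := by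
    rintro B' ⟨h1, h2⟩
    rcases le_or_gt B'.2 B.2 with h3 | h3
    · exact Or.inl ⟨h1, h2, h3⟩
    · exact Or.inr ⟨h1, h2, h3⟩
  -- small discs
  have hS1 : ∑' B' : S1, ENNReal.ofReal (stepW ε B' z h)
      ≤ ENNReal.ofReal ((2 * κ) ^ ε * (CC ε * δ ^ (-ε))) := by
    have h1 : ∀ B' : S1, ENNReal.ofReal (stepW ε B' z h)
        ≤ ENNReal.ofReal ((2 * κ) ^ ε) * ENNReal.ofReal ((B'.1).2 ^ 2 /
          (Real.sqrt (dsq (B'.1).1 z h)) ^ 2 * (Real.sqrt (dsq (B'.1).1 z h) - (B'.1).2) ^ (-ε)) := by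
      rintro ⟨B', hB1, hB2, hB3⟩
      rw [← ENNReal.ofReal_mul (by positivity)]
      apply ENNReal.ofReal_le_ofReal
      apply stepW_le_small ε κ hε hκ B' (BB_radius κ hκ B' hB1).1 z h hh
      have := gap_lower κ hκ hκ2 B B' hB hB1 hB2 z h
      rw [min_eq_right hB3] at this
      linarith
    refine le_trans (ENNReal.tsum_le_tsum h1) ?_
    rw [ENNReal.tsum_mul_left, ENNReal.ofReal_mul (by positivity)]
    apply mul_le_mul_right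
    have := packing_sum ε hε (ι := S1) (fun B' => (B'.1).1) (fun B' => (B'.1).2)
      (fun B' => Real.sqrt (dsq (B'.1).1 z h)) z δ hδ0
      (fun B' => (BB_radius κ hκ B'.1 B'.2.1).1) (fun B' => norm_le_sqrt_dsq _ _ _)
      (fun B' => by
        have h1 := gap_lower κ hκ hκ2 B B'.1 hB B'.2.1 B'.2.2.1 z h
        have h2 : 0 ≤ min B.2 (B'.1).2 / κ :=
          div_nonneg (le_min hr.1.le (BB_radius κ hκ B'.1 B'.2.1).1.le) hκ.le
        linarith)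
      (fun B1 B2 hne => BB_disjoint κ hκ hκ2 B1.1 B1.2.1 B2.1 B2.2.1
        (fun h => hne (Subtype.ext h)))
    exact this
  -- large discs
  have hS2 : ∑' B' : S2, ENNReal.ofReal (stepW ε B' z h)
      ≤ ENNReal.ofReal (CC ε * (δ / κ) ^ (-ε)) := by
    have hlow : ∀ B' : S2, δ / κ ≤ Real.sqrt (dsq (B'.1).1 z h) - (B'.1).2 := by
      intro B'
      have h1 := gap_lower κ hκ hκ2 B B'.1 hB B'.2.1 B'.2.2.1 z h
      rw [min_eq_left B'.2.2.2.le] at h1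
      have h2 : δ / κ ≤ B.2 / κ := div_le_div_of_nonneg_right hδB hκ.le
      linarith
    have h1 : ∀ B' : S2, ENNReal.ofReal (stepW ε B' z h)
        ≤ ENNReal.ofReal ((B'.1).2 ^ 2 /
          (Real.sqrt (dsq (B'.1).1 z h)) ^ 2 * (Real.sqrt (dsq (B'.1).1 z h) - (B'.1).2) ^ (-ε)) := by
      intro B'
      apply ENNReal.ofReal_le_ofReal
      apply stepW_le ε hε B'.1 (BB_radius κ hκ B'.1 B'.2.1).1 z h hh
      exact lt_of_lt_of_le (by positivity) (hlow B')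
    refine le_trans (ENNReal.tsum_le_tsum h1) ?_
    exact packing_sum ε hε (ι := S2) (fun B' => (B'.1).1) (fun B' => (B'.1).2)
      (fun B' => Real.sqrt (dsq (B'.1).1 z h)) z (δ / κ) (by positivity)
      (fun B' => (BB_radius κ hκ B'.1 B'.2.1).1) (fun B' => norm_le_sqrt_dsq _ _ _)
      hlow
      (fun B1 B2 hne => BB_disjoint κ hκ hκ2 B1.1 B1.2.1 B2.1 B2.2.1
        (fun h => hne (Subtype.ext h)))
  calc ∑' B' : {B' : ℂ × ℝ | B' ∈ BB κ ∧ B' ≠ B}, ENNReal.ofReal (stepW ε B' z h)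
      ≤ ∑' B' : ↑(S1 ∪ S2), ENNReal.ofReal (stepW ε B' z h) :=
        ENNReal.tsum_mono_subtype (fun B' => ENNReal.ofReal (stepW ε B' z h)) hsub
    _ ≤ _ := ENNReal.tsum_union_le (fun B' => ENNReal.ofReal (stepW ε B' z h)) S1 S2
    _ ≤ ENNReal.ofReal ((2 * κ) ^ ε * (CC ε * δ ^ (-ε))) + ENNReal.ofReal (CC ε * (δ / κ) ^ (-ε)) :=
        add_le_add hS1 hS2
    _ ≤ ENNReal.ofReal (1 / 2 * inW ε B z h) := by
        have hC := CC_nonneg ε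
        rw [← ENNReal.ofReal_add (by positivity) (by positivity)]
        apply ENNReal.ofReal_le_ofReal
        have e1 : (δ / κ) ^ (-ε) = κ ^ ε * δ ^ (-ε) := by
          rw [Real.div_rpow hδ0.le hκ.le, Real.rpow_neg hκ.le, div_inv_eq_mul, mul_comm]
        have e2 : κ ^ ε ≤ (2 * κ) ^ ε := Real.rpow_le_rpow hκ.le (by linarith) hε.le
        have e3 : δ ^ (-ε) ≤ inW ε B z h := by
          unfold inW
          rw [Real.rpow_neg hδ0.le, ← Real.inv_rpow hδ0.le]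
          apply Real.rpow_le_rpow (by positivity) _ hε.le
          rw [← hy2, inv_eq_one_div, div_le_div_iff₀ hδ0 (by nlinarith)]
          nlinarith
        have e4 : 0 < δ ^ (-ε) := by positivity
        rw [e1]
        calc (2 * κ) ^ ε * (CC ε * δ ^ (-ε)) + CC ε * (κ ^ ε * δ ^ (-ε))
            ≤ (2 * κ) ^ ε * (CC ε * δ ^ (-ε)) + CC ε * ((2 * κ) ^ ε * δ ^ (-ε)) := by gcongr
          _ = (2 * CC ε * (2 * κ) ^ ε) * δ ^ (-ε) := by ring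
          _ ≤ 1 / 2 * δ ^ (-ε) := by gcongr
          _ ≤ 1 / 2 * inW ε B z h := by gcongr

/-- value after the inversion -/
lemma step_value (ε : ℝ) (B' : ℂ × ℝ) (hB' : 0 < B'.2) (z : ℂ) (h : ℝ) (hh : 0 < h)
    (hout : B'.2 ^ 2 < dsq B'.1 z h) :
    (invH B'.1 B'.2 z h) ^ (1 + ε) * inW ε B' (invZ B'.1 B'.2 z h) (invH B'.1 B'.2 z h)
      = h ^ (1 + ε) * stepW ε B' z h := by
  have hD := dsq_pos B'.1 z h hh
  have hH := invH_pos B'.1 B'.2 z h hB' hh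
  unfold inW stepW
  rw [dsq_inv B'.1 B'.2 z h hh]
  have e0 : 0 < dsq B'.1 z h - B'.2 ^ 2 := by linarith
  have e1 : 0 < 2 * B'.2 / (B'.2 ^ 2 - B'.2 ^ 4 / dsq B'.1 z h) := by
    apply div_pos (by positivity)
    have : B'.2 ^ 2 - B'.2 ^ 4 / dsq B'.1 z h
      = B'.2 ^ 2 * (dsq B'.1 z h - B'.2 ^ 2) / dsq B'.1 z h := by field_simp
    rw [this]; positivity
  rw [Real.rpow_add hH, Real.rpow_one, mul_assoc, ← Real.mul_rpow hH.le e1.le]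
  have e2 : invH B'.1 B'.2 z h * (2 * B'.2 / (B'.2 ^ 2 - B'.2 ^ 4 / dsq B'.1 z h))
      = h * (2 * B'.2 / (dsq B'.1 z h - B'.2 ^ 2)) := by
    have e3 : B'.2 ^ 2 - B'.2 ^ 4 / dsq B'.1 z h
      = B'.2 ^ 2 * (dsq B'.1 z h - B'.2 ^ 2) / dsq B'.1 z h := by field_simp
    rw [e3]
    unfold invH
    field_simp
  rw [e2, Real.mul_rpow hh.le (by positivity), Real.rpow_add hh, Real.rpow_one]
  unfold invH
  ring

/-- the point after inversion is inside -/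
lemma inv_inside (B' : ℂ × ℝ) (hB' : 0 < B'.2) (z : ℂ) (h : ℝ) (hh : 0 < h)
    (hout : B'.2 ^ 2 < dsq B'.1 z h) :
    dsq B'.1 (invZ B'.1 B'.2 z h) (invH B'.1 B'.2 z h) < B'.2 ^ 2 := by
  have hD := dsq_pos B'.1 z h hh
  rw [dsq_inv B'.1 B'.2 z h hh, div_lt_iff₀ hD]
  have : 0 < B'.2 ^ 2 := by positivity
  nlinarith

lemma outside_of_inside (κ : ℝ) (hκ : 0 < κ) (hκ2 : κ ≤ 1 / 2) (B B' : ℂ × ℝ) (hB : B ∈ BB κ)
    (hB' : B' ∈ BB κ) (hne : B' ≠ B) (z : ℂ) (h : ℝ) (hh : 0 < h)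
    (hin : dsq B.1 z h < B.2 ^ 2) : B'.2 ^ 2 < dsq B'.1 z h := by
  have h1 := gap_lower κ hκ hκ2 B B' hB hB' hne z h
  have hr := BB_radius κ hκ B hB
  have hr' := BB_radius κ hκ B' hB'
  have h2 : Real.sqrt (dsq B.1 z h) < B.2 := (Real.sqrt_lt' hr.1).2 hin
  have h3 : 0 ≤ min B.2 B'.2 / κ := div_nonneg (le_min hr.1.le hr'.1.le) hκ.le
  have h4 : B'.2 < Real.sqrt (dsq B'.1 z h) := by linarith
  exact (Real.lt_sqrt hr'.1.le).1 h4

end Pool.Agent.H63.Cee
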