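import Mathlib
import Pool.Agent.H63.Cee.Transfer

set_option autoImplicit false

namespace Pool.Agent.H63.Cee

/-- splitting a sum over lists according to the head -/
lemma tsum_list {α : Type*} (f : List α → ENNReal) :
    ∑' l, f l = f [] + ∑' (a : α), ∑' (l : List α), f (a :: l) := by
  classical
  rw [ENNReal.tsum_eq_add_tsum_ite []]
  congr 1
  have hinj : Function.Injective (fun p : α × List α => p.1 :: p.2) := by
    rintro ⟨a, l⟩ ⟨b, m⟩ h
    simp only [List.cons.injEq] at h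
    exact Prod.ext h.1 h.2
  have hsupp : Function.support (fun l : List α => ite (l = []) 0 (f l)) ⊆
      Set.range (fun p : α × List α => p.1 :: p.2) := by
    intro l hl
    cases l with
    | nil => simp at hl
    | cons a l => exact ⟨(a, l), rfl⟩
  have key := hinj.tsum_eq hsupp
  rw [ENNReal.tsum_prod'] at key
  simp only [reduceCtorEq, if_false] at key
  rw [key]
  apply tsum_congr
  intro l
  cases l <;> simp

open Classical in
/-- weight of a word -/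
noncomputable def W (ε κ : ℝ) : List (ℂ × ℝ) → (ℂ × ℝ) → ℂ → ℝ → ENNReal
  | [], _, _, h => ENNReal.ofReal (h ^ (1 + ε))
  | (B' :: l), B, z, h =>
      if B' ∈ BB κ ∧ B' ≠ B then W ε κ l B' (invZ B'.1 B'.2 z h) (invH B'.1 B'.2 z h) else 0

lemma inW_ge_one (ε κ : ℝ) (hε : 0 < ε) (hκ : 0 < κ) (hκ2 : κ ≤ 1 / 2) (B : ℂ × ℝ)
    (hB : B ∈ BB κ) (z : ℂ) (h : ℝ) (hh : 0 < h) (hin : dsq B.1 z h < B.2 ^ 2) :
    1 ≤ inW ε B z h := by
  have hr := BB_radius κ hκ B hB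
  have hD := dsq_pos B.1 z h hh
  unfold inW
  apply Real.one_le_rpow _ hε.le
  rw [le_div_iff₀ (by linarith)]
  nlinarith

open Classical in
lemma W_trunc (ε κ : ℝ) (hε : 0 < ε) (hκ : 0 < κ) (hκ2 : κ ≤ 1 / 2)
    (hκ3 : 2 * CC ε * (2 * κ) ^ ε ≤ 1 / 2) (n : ℕ) :
    ∀ (B : ℂ × ℝ), B ∈ BB κ → ∀ (z : ℂ) (h : ℝ), 0 < h → dsq B.1 z h < B.2 ^ 2 →
    ∑' l : List (ℂ × ℝ), (if l.length ≤ n then W ε κ l B z h else 0)
      ≤ ENNReal.ofReal (2 * (h ^ (1 + ε) * inW ε B z h)) := by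
  induction n with
  | zero =>
    intro B hB z h hh hin
    have h1 := inW_ge_one ε κ hε hκ hκ2 B hB z h hh hin
    have hp : 0 < h ^ (1 + ε) := Real.rpow_pos_of_pos hh _
    rw [tsum_list]
    simp only [List.length_nil, le_refl, if_true, List.length_cons, Nat.succ_ne_zero,
      if_false, tsum_zero, add_zero, W, nonpos_iff_eq_zero]
    apply ENNReal.ofReal_le_ofReal
    nlinarith
  | succ n ih =>
    intro B hB z h hh hin
    have h1 := inW_ge_one ε κ hε hκ hκ2 B hB z h hh hin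
    have hp : 0 < h ^ (1 + ε) := Real.rpow_pos_of_pos hh _
    rw [tsum_list]
    have e1 : ∀ a : ℂ × ℝ, ∑' l : List (ℂ × ℝ), (if (a :: l).length ≤ n + 1 then
        W ε κ (a :: l) B z h else 0)
        = Set.indicator {B' : ℂ × ℝ | B' ∈ BB κ ∧ B' ≠ B} (fun a => ∑' l : List (ℂ × ℝ),
          (if l.length ≤ n then W ε κ l a (invZ a.1 a.2 z h) (invH a.1 a.2 z h) else 0)) a := by
      intro a
      by_cases ha : a ∈ BB κ ∧ a ≠ B
      · rw [Set.indicator_of_mem (show a ∈ {B' : ℂ × ℝ | B' ∈ BB κ ∧ B' ≠ B} from ha)]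
        congr 1
        ext l
        simp only [List.length_cons, W, add_le_add_iff_right]
        rw [if_pos ha]
      · rw [Set.indicator_of_notMem (show a ∉ {B' : ℂ × ℝ | B' ∈ BB κ ∧ B' ≠ B} from ha)]
        rw [ENNReal.tsum_eq_zero]
        intro l
        simp only [W]
        rw [if_neg ha]
        simp
    have e2 : ∑' a : ℂ × ℝ, ∑' l : List (ℂ × ℝ), (if (a :: l).length ≤ n + 1 then
        W ε κ (a :: l) B z h else 0)
        = ∑' a : {B' : ℂ × ℝ | B' ∈ BB κ ∧ B' ≠ B}, ∑' l : List (ℂ × ℝ),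
          (if l.length ≤ n then W ε κ l a.1 (invZ a.1.1 a.1.2 z h) (invH a.1.1 a.1.2 z h) else 0) := by
      rw [tsum_congr e1]
      rw [← tsum_subtype]
    rw [e2]
    have e3 : ∀ a : {B' : ℂ × ℝ | B' ∈ BB κ ∧ B' ≠ B}, ∑' l : List (ℂ × ℝ),
          (if l.length ≤ n then W ε κ l a.1 (invZ a.1.1 a.1.2 z h) (invH a.1.1 a.1.2 z h) else 0)
          ≤ ENNReal.ofReal (2 * h ^ (1 + ε)) * ENNReal.ofReal (stepW ε a.1 z h) := by
      rintro ⟨B', hB1, hB2⟩
      have hr := (BB_radius κ hκ B' hB1).1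
      have hout := outside_of_inside κ hκ hκ2 B B' hB hB1 hB2 z h hh hin
      have h3 := ih B' hB1 (invZ B'.1 B'.2 z h) (invH B'.1 B'.2 z h)
        (invH_pos _ _ _ _ hr hh) (inv_inside B' hr z h hh hout)
      refine le_trans h3 ?_
      rw [step_value ε B' hr z h hh hout, ← ENNReal.ofReal_mul (by positivity)]
      apply le_of_eq
      congr 1
      ring
    have e4 := ENNReal.tsum_le_tsum e3
    rw [ENNReal.tsum_mul_left] at e4
    have e5 := transfer ε κ hε hκ hκ2 hκ3 B hB z h hh hin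
    calc _ ≤ ENNReal.ofReal (h ^ (1 + ε)) + ENNReal.ofReal (2 * h ^ (1 + ε)) *
          ENNReal.ofReal (1 / 2 * inW ε B z h) := by
            refine add_le_add ?_ (e4.trans (mul_le_mul_right e5 _))
            simp [W]
      _ = ENNReal.ofReal (h ^ (1 + ε) + 2 * h ^ (1 + ε) * (1 / 2 * inW ε B z h)) := by
            rw [← ENNReal.ofReal_mul (by positivity), ← ENNReal.ofReal_add (by positivity)]
            nlinarith
      _ ≤ _ := by
            apply ENNReal.ofReal_le_ofReal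
            nlinarith

open Classical in
lemma W_total (ε κ : ℝ) (hε : 0 < ε) (hκ : 0 < κ) (hκ2 : κ ≤ 1 / 2)
    (hκ3 : 2 * CC ε * (2 * κ) ^ ε ≤ 1 / 2) (B : ℂ × ℝ) (hB : B ∈ BB κ) (z : ℂ) (h : ℝ)
    (hh : 0 < h) (hin : dsq B.1 z h < B.2 ^ 2) :
    ∑' l : List (ℂ × ℝ), W ε κ l B z h ≤ ENNReal.ofReal (2 * (h ^ (1 + ε) * inW ε B z h)) := by
  rw [ENNReal.tsum_eq_iSup_sum]
  apply iSup_le
  intro s
  obtain ⟨n, hn⟩ : ∃ n : ℕ, ∀ l ∈ s, l.length ≤ n := by
    refine ⟨s.sup List.length, fun l hl => Finset.le_sup (f := List.length) hl⟩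
  refine le_trans ?_ (W_trunc ε κ hε hκ hκ2 hκ3 n B hB z h hh hin)
  refine le_trans ?_ (ENNReal.sum_le_tsum s)
  apply Finset.sum_le_sum
  intro l hl
  rw [if_pos (hn l hl)]

/-- start marker, not a disc of the packing -/
def star : ℂ × ℝ := (0, -1)

lemma star_not_mem (κ : ℝ) (hκ : 0 < κ) : star ∉ BB κ := by
  intro h
  have := (BB_radius κ hκ star h).1
  simp [star] at this
  linarith

lemma outside_start (κ : ℝ) (hκ : 0 < κ) (hκ2 : κ ≤ 1 / 2) (B : ℂ × ℝ) (hB : B ∈ BB κ) :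
    B.2 ^ 2 < dsq B.1 0 1 := by
  have hr := BB_radius κ hκ B hB
  unfold dsq
  simp only [Complex.zero_re, Complex.zero_im]
  nlinarith [sq_nonneg (0 - B.1.re), sq_nonneg (0 - B.1.im)]

open Classical in
lemma W_start (ε κ : ℝ) (hε : 0 < ε) (hκ : 0 < κ) (hκ2 : κ ≤ 1 / 2)
    (hκ3 : 2 * CC ε * (2 * κ) ^ ε ≤ 1 / 2) :
    ∑' l : List (ℂ × ℝ), W ε κ l star 0 1 ≠ ⊤ := by
  rw [tsum_list]
  have hstar : ∀ a : ℂ × ℝ, (a ∈ BB κ ∧ a ≠ star) ↔ a ∈ BB κ := by
    intro a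
    constructor
    · exact fun h => h.1
    · intro h
      refine ⟨h, ?_⟩
      rintro rfl
      exact star_not_mem κ hκ h
  have e1 : ∀ a : ℂ × ℝ, ∑' l : List (ℂ × ℝ), W ε κ (a :: l) star 0 1
      = Set.indicator (BB κ) (fun a => ∑' l : List (ℂ × ℝ),
        W ε κ l a (invZ a.1 a.2 0 1) (invH a.1 a.2 0 1)) a := by
    intro a
    by_cases ha : a ∈ BB κ
    · rw [Set.indicator_of_mem ha]
      congr 1
      ext l
      simp only [W]
      rw [if_pos ((hstar a).2 ha)]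
    · rw [Set.indicator_of_notMem ha]
      rw [ENNReal.tsum_eq_zero]
      intro l
      simp only [W]
      rw [if_neg (fun h => ha h.1)]
  rw [tsum_congr e1, ← tsum_subtype]
  have e2 : ∀ a : BB κ, ∑' l : List (ℂ × ℝ), W ε κ l a.1 (invZ a.1.1 a.1.2 0 1) (invH a.1.1 a.1.2 0 1)
      ≤ ENNReal.ofReal 2 * ENNReal.ofReal ((a.1).2 ^ 2 / (Real.sqrt (dsq (a.1).1 0 1)) ^ 2 *
      (Real.sqrt (dsq (a.1).1 0 1) - (a.1).2) ^ (-ε)) := by
    rintro ⟨B', hB'⟩
    have hr := BB_radius κ hκ B' hB'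
    have hout := outside_start κ hκ hκ2 B' hB'
    refine le_trans (W_total ε κ hε hκ hκ2 hκ3 B' hB' _ _ (invH_pos _ _ _ _ hr.1 one_pos)
      (inv_inside B' hr.1 0 1 one_pos hout)) ?_
    rw [step_value ε B' hr.1 0 1 one_pos hout, ← ENNReal.ofReal_mul (by norm_num)]
    apply ENNReal.ofReal_le_ofReal
    rw [Real.one_rpow, one_mul]
    apply mul_le_mul_of_nonneg_left _ (by norm_num)
    apply stepW_le ε hε B' hr.1 0 1 one_pos
    have : B'.2 < Real.sqrt (dsq B'.1 0 1) := (Real.lt_sqrt hr.1.le).2 hout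
    linarith
  have e3 := ENNReal.tsum_le_tsum e2
  rw [ENNReal.tsum_mul_left] at e3
  have e4 := packing_sum ε hε (ι := BB κ) (fun B' => (B'.1).1) (fun B' => (B'.1).2)
      (fun B' => Real.sqrt (dsq (B'.1).1 0 1)) 0 (1 / 2) (by norm_num)
      (fun B' => (BB_radius κ hκ B'.1 B'.2).1) (fun B' => norm_le_sqrt_dsq _ _ _)
      (fun B' => by
        have hr := BB_radius κ hκ B'.1 B'.2
        have h1 : 1 ≤ Real.sqrt (dsq (B'.1).1 0 1) := by
          apply Real.le_sqrt_of_sq_le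
          unfold dsq
          simp only [Complex.zero_re, Complex.zero_im]
          nlinarith [sq_nonneg (0 - B'.1.1.re), sq_nonneg (0 - B'.1.1.im)]
        linarith)
      (fun B1 B2 hne => BB_disjoint κ hκ hκ2 B1.1 B1.2 B2.1 B2.2
        (fun h => hne (Subtype.ext h)))
  refine ne_of_lt (lt_of_le_of_lt (add_le_add le_rfl (e3.trans (mul_le_mul_right e4 _))) ?_)
  simp only [W]
  apply ENNReal.add_lt_top.2
  exact ⟨ENNReal.ofReal_lt_top, ENNReal.mul_lt_top ENNReal.ofReal_lt_top ENNReal.ofReal_lt_top⟩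

/-- the lattice sum -/
lemma lattice_sum (ε : ℝ) (hε : 0 < ε) (z : ℂ) :
    ∑' p : ℤ × ℤ, ENNReal.ofReal ((1 + (z.re + p.1) ^ 2 + (z.im + p.2) ^ 2) ^ (-(1 + ε)))
      ≤ ENNReal.ofReal (16 * (CC (2 * ε) * (1 / 2) ^ (-(2 * ε)))) := by
  have e1 := packing_sum (2 * ε) (by positivity) (ι := ℤ × ℤ) (fun p => lat 0 p.1 p.2)
    (fun _ => 1 / 4) (fun p => Real.sqrt (dsq (lat 0 p.1 p.2) (-z) 1)) (-z) (1 / 2) (by norm_num)
    (fun _ => by norm_num) (fun p => norm_le_sqrt_dsq _ _ _)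
    (fun p => by
      have h1 : 1 ≤ Real.sqrt (dsq (lat 0 p.1 p.2) (-z) 1) := by
        apply Real.le_sqrt_of_sq_le
        unfold dsq
        nlinarith [sq_nonneg ((-z).re - (lat 0 p.1 p.2).re), sq_nonneg ((-z).im - (lat 0 p.1 p.2).im)]
      linarith)
    (fun p q hne => by
      apply Metric.ball_disjoint_ball
      rw [dist_eq_norm]
      have h1 : lat 0 p.1 p.2 ≠ lat 0 q.1 q.2 := by
        intro h
        apply hne
        have h2 := congrArg Complex.re h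
        have h3 := congrArg Complex.im h
        simp [lat] at h2 h3
        exact Prod.ext h2 h3
      have := lat_sub_norm 0 p.1 p.2 q.1 q.2 h1
      norm_num at this ⊢
      linarith)
  rw [← mul_assoc, ENNReal.ofReal_mul' (by positivity), ENNReal.ofReal_mul (by norm_num)]
  have e2 : ENNReal.ofReal (CC (2 * ε)) * ENNReal.ofReal ((1 / 2) ^ (-(2 * ε)))
      = ENNReal.ofReal (4 ^ (2 + 2 * ε) * massC (2 * ε) * (1 / 2) ^ (-(2 * ε))) := by
    rw [← ENNReal.ofReal_mul (CC_nonneg _)]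
    rfl
  rw [mul_assoc, e2]
  refine le_trans ?_ (mul_le_mul_right e1 _)
  rw [← ENNReal.tsum_mul_left]
  apply ENNReal.tsum_le_tsum
  intro p
  rw [← ENNReal.ofReal_mul (by norm_num)]
  apply ENNReal.ofReal_le_ofReal
  have hd : dsq (lat 0 p.1 p.2) (-z) 1 = 1 + (z.re + p.1) ^ 2 + (z.im + p.2) ^ 2 := by
    unfold dsq lat
    simp
    ring
  rw [hd]
  set D := 1 + (z.re + p.1) ^ 2 + (z.im + p.2) ^ 2 with hD
  have hD1 : 1 ≤ D := by rw [hD]; nlinarith [sq_nonneg (z.re + p.1), sq_nonneg (z.im + p.2)]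
  set x := Real.sqrt D with hx
  have hx2 : x ^ 2 = D := Real.sq_sqrt (by linarith)
  have hx1 : 1 ≤ x := Real.le_sqrt_of_sq_le (by linarith)
  have e3 : D ^ (-(1 + ε)) = 1 / x ^ 2 * x ^ (-(2 * ε)) := by
    rw [← hx2, ← Real.rpow_natCast x 2, ← Real.rpow_mul (by linarith), one_div,
      ← Real.rpow_neg (by linarith), ← Real.rpow_add (by linarith)]
    congr 1
    push_cast
    ring
  have e4 : x ^ (-(2 * ε)) ≤ (x - 1 / 4) ^ (-(2 * ε)) :=
    Real.rpow_le_rpow_of_nonpos (by linarith) (by linarith) (by linarith)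
  rw [e3]
  have e5 : (16:ℝ) * ((1 / 4) ^ 2 / x ^ 2 * (x - 1 / 4) ^ (-(2 * ε)))
      = 1 / x ^ 2 * (x - 1 / 4) ^ (-(2 * ε)) := by ring
  rw [e5]
  gcongr

end Pool.Agent.H63.Cee
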