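import Mathlib
import Pool.Agent.H63.Cee.Words

set_option autoImplicit false
open Matrix

namespace Pool.Agent.H63.Cee

abbrev G4 := Matrix.GeneralLinearGroup (Fin 4) ℝ

open Classical in
/-- reflection as group element (identity for zero radius) -/
noncomputable def reflG (B : ℂ × ℝ) : G4 :=
  if hB : B.2 ≠ 0 then
    ⟨refl (nrm B.1 B.2), refl (nrm B.1 B.2), refl_mul_self _ (nrm_unit _ _ hB),
      refl_mul_self _ (nrm_unit _ _ hB)⟩
  else 1

lemma reflG_val (B : ℂ × ℝ) (hB : B.2 ≠ 0) :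
    (reflG B : Matrix (Fin 4) (Fin 4) ℝ) = refl (nrm B.1 B.2) := by
  unfold reflG
  rw [dif_pos hB]

lemma reflG_mul_self (B : ℂ × ℝ) : reflG B * reflG B = 1 := by
  by_cases hB : B.2 ≠ 0
  · apply Units.ext
    rw [Units.val_mul, reflG_val B hB, Units.val_one]
    exact refl_mul_self _ (nrm_unit _ _ hB)
  · unfold reflG
    rw [dif_neg hB, one_mul]

lemma reflG_inv (B : ℂ × ℝ) : (reflG B)⁻¹ = reflG B :=
  inv_eq_of_mul_eq_one_left (reflG_mul_self B)

/-- translation as group element -/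
noncomputable def transG (u : ℂ) : G4 :=
  ⟨trans u, trans (-u), by rw [trans_mul, add_neg_cancel, trans_zero],
    by rw [trans_mul, neg_add_cancel, trans_zero]⟩

lemma transG_val (u : ℂ) : (transG u : Matrix (Fin 4) (Fin 4) ℝ) = trans u := rfl

lemma transG_mul (u v : ℂ) : transG u * transG v = transG (u + v) := by
  apply Units.ext
  rw [Units.val_mul, transG_val, transG_val, transG_val, trans_mul]

lemma transG_zero : transG 0 = 1 := by
  apply Units.ext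
  rw [transG_val, trans_zero, Units.val_one]

lemma transG_inv (u : ℂ) : (transG u)⁻¹ = transG (-u) := by
  apply inv_eq_of_mul_eq_one_left
  rw [transG_mul, neg_add_cancel, transG_zero]

lemma refl_trans (c u : ℂ) (ρ : ℝ) (hρ : ρ ≠ 0) :
    refl (nrm c ρ) * trans u = trans u * refl (nrm (c - u) ρ) := by
  ext i j
  fin_cases i <;> fin_cases j <;>
    simp [refl, trans, nrm, Matrix.mul_apply, Fin.sum_univ_four] <;> field_simp <;> ring

lemma reflG_transG (B : ℂ × ℝ) (u : ℂ) :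
    reflG B * transG u = transG u * reflG (B.1 - u, B.2) := by
  by_cases hB : B.2 ≠ 0
  · apply Units.ext
    rw [Units.val_mul, Units.val_mul, reflG_val B hB, transG_val, reflG_val (B.1 - u, B.2) hB]
    exact refl_trans B.1 u B.2 hB
  · unfold reflG
    rw [dif_neg hB, dif_neg hB, one_mul, mul_one]

/-- group element of a word -/
noncomputable def wordG : List (ℂ × ℝ) → G4
  | [] => 1
  | (B :: l) => wordG l * reflG B

/-- action of a word on a point -/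
noncomputable def act : List (ℂ × ℝ) → ℂ → ℝ → ℂ × ℝ
  | [], z, h => (z, h)
  | (B :: l), z, h => act l (invZ B.1 B.2 z h) (invH B.1 B.2 z h)

lemma act_pos (l : List (ℂ × ℝ)) (hl : ∀ B ∈ l, 0 < B.2) (z : ℂ) (h : ℝ) (hh : 0 < h) :
    0 < (act l z h).2 := by
  induction l generalizing z h with
  | nil => simpa [act] using hh
  | cons B l ih =>
    rw [act]
    apply ih (fun B' hB' => hl B' (List.mem_cons_of_mem _ hB'))
    exact invH_pos _ _ _ _ (hl B List.mem_cons_self) hh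

lemma wordG_emb (l : List (ℂ × ℝ)) (hl : ∀ B ∈ l, 0 < B.2) (z : ℂ) (h : ℝ) (hh : 0 < h) :
    (wordG l : Matrix (Fin 4) (Fin 4) ℝ) *ᵥ emb z h = emb (act l z h).1 (act l z h).2 := by
  induction l generalizing z h with
  | nil => simp [act, wordG]
  | cons B l ih =>
    have hB := hl B List.mem_cons_self
    rw [act, wordG, Units.val_mul, ← Matrix.mulVec_mulVec, reflG_val B hB.ne',
      refl_emb B.1 B.2 z h hB hh]
    exact ih (fun B' hB' => hl B' (List.mem_cons_of_mem _ hB')) _ _ (invH_pos _ _ _ _ hB hh)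

/-- admissible words -/
def valid (κ : ℝ) : (ℂ × ℝ) → List (ℂ × ℝ) → Prop
  | _, [] => True
  | B, (B' :: l) => (B' ∈ BB κ ∧ B' ≠ B) ∧ valid κ B' l

lemma valid_mem (κ : ℝ) (B : ℂ × ℝ) (l : List (ℂ × ℝ)) (h : valid κ B l) :
    ∀ B' ∈ l, B' ∈ BB κ := by
  induction l generalizing B with
  | nil => simp
  | cons B' l ih =>
    intro B'' hB''
    rcases List.mem_cons.1 hB'' with rfl | h2
    · exact h.1.1
    · exact ih B' h.2 B'' h2

lemma valid_of_not_mem (κ : ℝ) (B B' : ℂ × ℝ) (hB' : B' ∉ BB κ) (l : List (ℂ × ℝ))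
    (h : valid κ B l) : valid κ B' l := by
  cases l with
  | nil => trivial
  | cons B'' l =>
    refine ⟨⟨h.1.1, ?_⟩, h.2⟩
    rintro rfl
    exact hB' h.1.1

lemma W_eq (ε κ : ℝ) (B : ℂ × ℝ) (l : List (ℂ × ℝ)) (hl : valid κ B l) (z : ℂ) (h : ℝ) :
    W ε κ l B z h = ENNReal.ofReal ((act l z h).2 ^ (1 + ε)) := by
  induction l generalizing B z h with
  | nil => simp [W, act]
  | cons B' l ih =>
    rw [W, if_pos hl.1, act]
    exact ih B' hl.2 _ _

lemma BB_sub_lat (κ : ℝ) (a b : ℤ) (B : ℂ × ℝ) (hB : B ∈ BB κ) : (B.1 - lat 0 a b, B.2) ∈ BB κ := by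
  have := BB_periodic κ (-a) (-b) B hB
  have e : B.1 + lat 0 (-a) (-b) = B.1 - lat 0 a b := by
    apply Complex.ext <;> simp [lat] <;> ring
  rwa [e] at this

lemma valid_shift (κ : ℝ) (a b : ℤ) (B : ℂ × ℝ) (l : List (ℂ × ℝ)) (hl : valid κ B l) :
    valid κ (B.1 - lat 0 a b, B.2) (l.map (fun B => (B.1 - lat 0 a b, B.2))) := by
  induction l generalizing B with
  | nil => trivial
  | cons B' l ih =>
    refine ⟨⟨BB_sub_lat κ a b B' hl.1.1, ?_⟩, ih B' hl.2⟩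
    intro h
    apply hl.1.2
    have h1 := congrArg Prod.fst h
    have h2 := congrArg Prod.snd h
    simp only [sub_left_inj] at h1 h2
    exact Prod.ext h1 h2

lemma wordG_transG (l : List (ℂ × ℝ)) (u : ℂ) :
    wordG l * transG u = transG u * wordG (l.map (fun B => (B.1 - u, B.2))) := by
  induction l with
  | nil => simp [wordG]
  | cons B l ih =>
    rw [List.map_cons, wordG, wordG, mul_assoc, reflG_transG, ← mul_assoc, ih, mul_assoc]

/-- generators -/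
def gens (κ : ℝ) : Set G4 :=
  {g | ∃ B ∈ BB κ, g = reflG B} ∪ {g | ∃ a b : ℤ, g = transG (lat 0 a b)}

/-- the group -/
def NN (κ : ℝ) : Subgroup G4 := Subgroup.closure (gens κ)

lemma lat_add (a b a' b' : ℤ) : lat 0 a b + lat 0 a' b' = lat 0 (a + a') (b + b') := by
  apply Complex.ext <;> simp [lat]

lemma lat_neg (a b : ℤ) : - lat 0 a b = lat 0 (-a) (-b) := by
  apply Complex.ext <;> simp [lat]

lemma lat_zero : lat 0 0 0 = 0 := by
  apply Complex.ext <;> simp [lat]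

lemma reflG_mem (κ : ℝ) (B : ℂ × ℝ) (hB : B ∈ BB κ) : reflG B ∈ NN κ :=
  Subgroup.subset_closure (Or.inl ⟨B, hB, rfl⟩)

lemma transG_mem (κ : ℝ) (a b : ℤ) : transG (lat 0 a b) ∈ NN κ :=
  Subgroup.subset_closure (Or.inr ⟨a, b, rfl⟩)

lemma rep_refl (κ : ℝ) (a b : ℤ) (l : List (ℂ × ℝ)) (hl : valid κ star l) (B : ℂ × ℝ)
    (hB : B ∈ BB κ) (hκ : 0 < κ) :
    ∃ (a' b' : ℤ) (l' : List (ℂ × ℝ)), valid κ star l' ∧
      transG (lat 0 a b) * wordG l * reflG B = transG (lat 0 a' b') * wordG l' := by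
  have hBs : B ≠ star := by rintro rfl; exact star_not_mem κ hκ hB
  cases l with
  | nil =>
    refine ⟨a, b, [B], ⟨⟨hB, hBs⟩, trivial⟩, ?_⟩
    simp [wordG]
  | cons B' l =>
    by_cases h : B' = B
    · subst h
      refine ⟨a, b, l, valid_of_not_mem κ B' star (star_not_mem κ hκ) l hl.2, ?_⟩
      rw [wordG, mul_assoc, mul_assoc, reflG_mul_self, mul_one]
    · refine ⟨a, b, B :: B' :: l, ⟨⟨hB, hBs⟩, ⟨hl.1.1, h⟩, hl.2⟩, ?_⟩
      simp only [wordG, mul_assoc]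

lemma NN_rep (κ : ℝ) (hκ : 0 < κ) (g : G4) (hg : g ∈ NN κ) :
    ∃ (a b : ℤ) (l : List (ℂ × ℝ)), valid κ star l ∧ g = transG (lat 0 a b) * wordG l := by
  have hstar := star_not_mem κ hκ
  have htr : ∀ (a b : ℤ) (l : List (ℂ × ℝ)), valid κ star l → ∀ c d : ℤ,
      ∃ (a' b' : ℤ) (l' : List (ℂ × ℝ)), valid κ star l' ∧
      transG (lat 0 a b) * wordG l * transG (lat 0 c d) = transG (lat 0 a' b') * wordG l' := by
    intro a b l hl c d
    refine ⟨a + c, b + d, l.map (fun B => (B.1 - lat 0 c d, B.2)), ?_, ?_⟩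
    · exact valid_of_not_mem κ _ star hstar _ (valid_shift κ c d star l hl)
    · rw [mul_assoc, wordG_transG, ← mul_assoc, transG_mul, lat_add]
  induction hg using Subgroup.closure_induction_right with
  | one => exact ⟨0, 0, [], trivial, by simp [wordG, lat_zero, transG_zero]⟩
  | mul_right x hx y hy ih =>
    obtain ⟨a, b, l, hl, rfl⟩ := ih
    rcases hy with ⟨B, hB, rfl⟩ | ⟨c, d, rfl⟩
    · exact rep_refl κ a b l hl B hB hκ
    · exact htr a b l hl c d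
  | mul_inv_cancel x hx y hy ih =>
    obtain ⟨a, b, l, hl, rfl⟩ := ih
    rcases hy with ⟨B, hB, rfl⟩ | ⟨c, d, rfl⟩
    · rw [reflG_inv]
      exact rep_refl κ a b l hl B hB hκ
    · rw [transG_inv, lat_neg]
      exact htr a b l hl (-c) (-d)

lemma emb_base : emb 0 1 = ![1, 0, 0, 0] := by
  ext i
  fin_cases i <;> simp [emb]

lemma entry_eq (g : G4) : (g : Matrix (Fin 4) (Fin 4) ℝ) 0 0
    = ((g : Matrix (Fin 4) (Fin 4) ℝ) *ᵥ emb 0 1) 0 := by
  rw [emb_base]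
  simp [Matrix.mulVec, dotProduct, Fin.sum_univ_four]

lemma rep_emb (κ : ℝ) (hκ : 0 < κ) (a b : ℤ) (l : List (ℂ × ℝ)) (hl : valid κ star l)
    (z : ℂ) (h : ℝ) (hh : 0 < h) :
    0 < (act l z h).2 ∧
    ((transG (lat 0 a b) * wordG l : G4) : Matrix (Fin 4) (Fin 4) ℝ) *ᵥ emb z h
      = emb ((act l z h).1 + lat 0 a b) (act l z h).2 := by
  have hpos : ∀ B ∈ l, 0 < B.2 := fun B hB => (BB_radius κ hκ B (valid_mem κ star l hl B hB)).1
  have h1 := act_pos l hpos z h hh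
  refine ⟨h1, ?_⟩
  rw [Units.val_mul, ← Matrix.mulVec_mulVec, wordG_emb l hpos z h hh, transG_val,
    trans_emb _ _ _ h1.ne']

lemma NN_emb (κ : ℝ) (hκ : 0 < κ) (g : G4) (hg : g ∈ NN κ) (z : ℂ) (h : ℝ) (hh : 0 < h) :
    ∃ (z' : ℂ) (h' : ℝ), 0 < h' ∧ (g : Matrix (Fin 4) (Fin 4) ℝ) *ᵥ emb z h = emb z' h' := by
  obtain ⟨a, b, l, hl, rfl⟩ := NN_rep κ hκ g hg
  obtain ⟨h1, h2⟩ := rep_emb κ hκ a b l hl z h hh
  exact ⟨_, _, h1, h2⟩

lemma emb_zero_pos (z : ℂ) (h : ℝ) (hh : 0 < h) : 0 < emb z h 0 := by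
  simp only [emb, Matrix.cons_val_zero]
  positivity

lemma NN_pos (κ : ℝ) (hκ : 0 < κ) (g : G4) (hg : g ∈ NN κ) :
    0 < (g : Matrix (Fin 4) (Fin 4) ℝ) 0 0 := by
  obtain ⟨z, h, hh, e⟩ := NN_emb κ hκ g hg 0 1 one_pos
  rw [entry_eq, e]
  exact emb_zero_pos z h hh

lemma NN_form (κ : ℝ) (hκ : 0 < κ) (g : G4) (hg : g ∈ NN κ) :
    (g : Matrix (Fin 4) (Fin 4) ℝ)ᵀ * J * (g : Matrix (Fin 4) (Fin 4) ℝ) = J := by
  induction hg using Subgroup.closure_induction with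
  | mem x hx =>
    rcases hx with ⟨B, hB, rfl⟩ | ⟨c, d, rfl⟩
    · have hB2 := (BB_radius κ hκ B hB).1.ne'
      rw [reflG_val B hB2]
      exact refl_form _ (nrm_unit _ _ hB2)
    · exact trans_form _
  | one => simp
  | mul x y hx hy h1 h2 =>
    rw [Units.val_mul, Matrix.transpose_mul]
    calc (y : Matrix (Fin 4) (Fin 4) ℝ)ᵀ * (x : Matrix (Fin 4) (Fin 4) ℝ)ᵀ * J *
          ((x : Matrix (Fin 4) (Fin 4) ℝ) * (y : Matrix (Fin 4) (Fin 4) ℝ))
        = (y : Matrix (Fin 4) (Fin 4) ℝ)ᵀ * ((x : Matrix (Fin 4) (Fin 4) ℝ)ᵀ * J *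
          (x : Matrix (Fin 4) (Fin 4) ℝ)) * (y : Matrix (Fin 4) (Fin 4) ℝ) := by
          simp only [Matrix.mul_assoc]
      _ = J := by rw [h1, h2]
  | inv x hx h1 =>
    have e1 : (x : Matrix (Fin 4) (Fin 4) ℝ) * ((x⁻¹ : G4) : Matrix (Fin 4) (Fin 4) ℝ) = 1 := by
      rw [← Units.val_mul, mul_inv_cancel, Units.val_one]
    have e2 : ((x⁻¹ : G4) : Matrix (Fin 4) (Fin 4) ℝ)ᵀ * (x : Matrix (Fin 4) (Fin 4) ℝ)ᵀ = 1 := by
      rw [← Matrix.transpose_mul, e1, Matrix.transpose_one]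
    calc ((x⁻¹ : G4) : Matrix (Fin 4) (Fin 4) ℝ)ᵀ * J * ((x⁻¹ : G4) : Matrix (Fin 4) (Fin 4) ℝ)
        = ((x⁻¹ : G4) : Matrix (Fin 4) (Fin 4) ℝ)ᵀ * ((x : Matrix (Fin 4) (Fin 4) ℝ)ᵀ * J *
          (x : Matrix (Fin 4) (Fin 4) ℝ)) * ((x⁻¹ : G4) : Matrix (Fin 4) (Fin 4) ℝ) := by rw [h1]
      _ = (((x⁻¹ : G4) : Matrix (Fin 4) (Fin 4) ℝ)ᵀ * (x : Matrix (Fin 4) (Fin 4) ℝ)ᵀ) * J *
          ((x : Matrix (Fin 4) (Fin 4) ℝ) * ((x⁻¹ : G4) : Matrix (Fin 4) (Fin 4) ℝ)) := by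
          simp only [Matrix.mul_assoc]
      _ = J := by rw [e1, e2, one_mul, mul_one]

end Pool.Agent.H63.Cee
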