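import Mathlib
import Pool.Agent.H63.Cee.Group

set_option autoImplicit false
open Matrix

namespace Pool.Agent.H63.Cee

lemma emb_zero_eq (z : ℂ) (h : ℝ) (a b : ℤ) :
    emb (z + lat 0 a b) h 0 = (1 + ((z.re + a) ^ 2 + (z.im + b) ^ 2) + h ^ 2) / (2 * h) := by
  simp [emb, lat]

lemma lattice_term (ε : ℝ) (hε : 0 < ε) (z : ℂ) (h : ℝ) (hh : 0 < h) :
    ∑' p : ℤ × ℤ, ENNReal.ofReal ((emb (z + lat 0 p.1 p.2) h 0) ^ (-(1 + ε)))
      ≤ ENNReal.ofReal (2 ^ (1 + ε) * (16 * (CC (2 * ε) * (1 / 2) ^ (-(2 * ε))))) *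
        ENNReal.ofReal (h ^ (1 + ε)) := by
  have h1 : ∀ p : ℤ × ℤ, ENNReal.ofReal ((emb (z + lat 0 p.1 p.2) h 0) ^ (-(1 + ε)))
      ≤ ENNReal.ofReal (2 ^ (1 + ε) * h ^ (1 + ε)) *
        ENNReal.ofReal ((1 + (z.re + p.1) ^ 2 + (z.im + p.2) ^ 2) ^ (-(1 + ε))) := by
    intro p
    rw [← ENNReal.ofReal_mul (by positivity)]
    apply ENNReal.ofReal_le_ofReal
    rw [emb_zero_eq]
    have e1 : (2:ℝ) ^ (1 + ε) * h ^ (1 + ε) = (1 / (2 * h)) ^ (-(1 + ε)) := by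
      rw [← Real.mul_rpow (by norm_num) hh.le, one_div, Real.inv_rpow (by positivity),
        Real.rpow_neg (by positivity), inv_inv]
    rw [e1, ← Real.mul_rpow (by positivity) (by positivity)]
    apply Real.rpow_le_rpow_of_nonpos
    · positivity
    · rw [div_mul_eq_mul_div, one_mul]
      apply div_le_div_of_nonneg_right _ (by positivity)
      nlinarith [sq_nonneg h]
    · linarith
  refine le_trans (ENNReal.tsum_le_tsum h1) ?_
  rw [ENNReal.tsum_mul_left]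
  refine le_trans (mul_le_mul_right (lattice_sum ε hε z) _) ?_
  have hC := CC_nonneg (2 * ε)
  rw [← ENNReal.ofReal_mul (by positivity), ← ENNReal.ofReal_mul (by positivity)]
  apply le_of_eq
  congr 1
  ring

open Classical in
/-- weight of a pair (word, translation) -/
noncomputable def FF (ε κ : ℝ) (l : List (ℂ × ℝ)) (p : ℤ × ℤ) : ENNReal :=
  if valid κ star l then
    ENNReal.ofReal ((emb ((act l 0 1).1 + lat 0 p.1 p.2) (act l 0 1).2 0) ^ (-(1 + ε))) else 0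

lemma FF_total (ε κ : ℝ) (hε : 0 < ε) (hκ : 0 < κ) (hκ2 : κ ≤ 1 / 2)
    (hκ3 : 2 * CC ε * (2 * κ) ^ ε ≤ 1 / 2) :
    ∑' q : List (ℂ × ℝ) × (ℤ × ℤ), FF ε κ q.1 q.2 ≠ ⊤ := by
  rw [ENNReal.tsum_prod]
  have h1 : ∀ l : List (ℂ × ℝ), ∑' p : ℤ × ℤ, FF ε κ l p
      ≤ ENNReal.ofReal (2 ^ (1 + ε) * (16 * (CC (2 * ε) * (1 / 2) ^ (-(2 * ε))))) *
        W ε κ l star 0 1 := by
    intro l
    by_cases hl : valid κ star l
    · have hpos : ∀ B ∈ l, 0 < B.2 := fun B hB => (BB_radius κ hκ B (valid_mem κ star l hl B hB)).1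
      have h2 := act_pos l hpos 0 1 one_pos
      rw [W_eq ε κ star l hl]
      refine le_trans (le_of_eq ?_) (lattice_term ε hε (act l 0 1).1 (act l 0 1).2 h2)
      apply tsum_congr
      intro p
      rw [FF, if_pos hl]
    · have : ∀ p : ℤ × ℤ, FF ε κ l p = 0 := by
        intro p
        rw [FF, if_neg hl]
      simp [this]
  refine ne_of_lt (lt_of_le_of_lt (ENNReal.tsum_le_tsum h1) ?_)
  rw [ENNReal.tsum_mul_left]
  exact ENNReal.mul_lt_top ENNReal.ofReal_lt_top (W_start ε κ hε hκ hκ2 hκ3).lt_top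

theorem NN_summable (ε κ : ℝ) (hε : 0 < ε) (hκ : 0 < κ) (hκ2 : κ ≤ 1 / 2)
    (hκ3 : 2 * CC ε * (2 * κ) ^ ε ≤ 1 / 2) :
    Summable (fun g : NN κ => ((g : G4) : Matrix (Fin 4) (Fin 4) ℝ) 0 0 ^ (-(1 + ε))) := by
  choose a b l hl hrep using fun g : NN κ => NN_rep κ hκ g.1 g.2
  let Φ : NN κ → List (ℂ × ℝ) × (ℤ × ℤ) := fun g => (l g, (a g, b g))
  have hinj : Function.Injective Φ := by
    intro g g' h
    apply Subtype.ext
    have h1 : l g = l g' := congrArg (fun q => q.1) h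
    have h2 : a g = a g' := congrArg (fun q => q.2.1) h
    have h3 : b g = b g' := congrArg (fun q => q.2.2) h
    rw [hrep g, hrep g', h1, h2, h3]
  have hF : ∀ g : NN κ, FF ε κ (Φ g).1 (Φ g).2
      = ENNReal.ofReal (((g : G4) : Matrix (Fin 4) (Fin 4) ℝ) 0 0 ^ (-(1 + ε))) := by
    intro g
    simp only [Φ]
    rw [FF, if_pos (hl g)]
    congr 2
    rw [entry_eq]
    conv_rhs => rw [hrep g]
    rw [(rep_emb κ hκ (a g) (b g) (l g) (hl g) 0 1 one_pos).2]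
  have h1 : ∑' g : NN κ, ENNReal.ofReal (((g : G4) : Matrix (Fin 4) (Fin 4) ℝ) 0 0 ^ (-(1 + ε))) ≠ ⊤ := by
    have h2 := ENNReal.tsum_comp_le_tsum_of_injective hinj (fun q => FF ε κ q.1 q.2)
    have h3 : ∑' g : NN κ, ENNReal.ofReal (((g : G4) : Matrix (Fin 4) (Fin 4) ℝ) 0 0 ^ (-(1 + ε)))
        = ∑' g : NN κ, FF ε κ (Φ g).1 (Φ g).2 := by
      apply tsum_congr
      intro g
      rw [hF g]
    rw [h3]
    exact ne_of_lt (lt_of_le_of_lt h2 (FF_total ε κ hε hκ hκ2 hκ3).lt_top)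
  have h4 := ENNReal.summable_toReal h1
  refine h4.congr ?_
  intro g
  rw [ENNReal.toReal_ofReal]
  exact Real.rpow_nonneg (NN_pos κ hκ g.1 g.2).le _

lemma dsq_cov (c z u : ℂ) (h : ℝ) : dsq (c + u) (z + u) h = dsq c z h := by
  unfold dsq
  simp

/-- entries are at least one -/
lemma emb_zero_ge_one (z : ℂ) (h : ℝ) (hh : 0 < h) : 1 ≤ emb z h 0 := by
  simp only [emb, Matrix.cons_val_zero]
  rw [le_div_iff₀ (by positivity)]
  nlinarith [sq_nonneg z.re, sq_nonneg z.im, sq_nonneg (h - 1)]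

lemma NN_ge_one (κ : ℝ) (hκ : 0 < κ) (g : G4) (hg : g ∈ NN κ) :
    1 ≤ (g : Matrix (Fin 4) (Fin 4) ℝ) 0 0 := by
  obtain ⟨z, h, hh, e⟩ := NN_emb κ hκ g hg 0 1 one_pos
  rw [entry_eq, e]
  exact emb_zero_ge_one z h hh

theorem NN_discrete (ε κ : ℝ) (hε : 0 < ε) (hκ : 0 < κ) (hκ2 : κ ≤ 1 / 2)
    (hκ3 : 2 * CC ε * (2 * κ) ^ ε ≤ 1 / 2) : DiscreteTopology (NN κ) := by
  have hs := NN_summable ε κ hε hκ hκ2 hκ3
  have hfin : {g : NN κ | ((g : G4) : Matrix (Fin 4) (Fin 4) ℝ) 0 0 < 2}.Finite := by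
    have h1 := hs.tendsto_cofinite_zero
    have h2 : ∀ᶠ g : NN κ in Filter.cofinite,
        ((g : G4) : Matrix (Fin 4) (Fin 4) ℝ) 0 0 ^ (-(1 + ε)) < 2 ^ (-(1 + ε)) := by
      have h3 : (0:ℝ) < 2 ^ (-(1 + ε)) := by positivity
      exact h1.eventually (Iio_mem_nhds h3)
    rw [Filter.eventually_cofinite] at h2
    apply h2.subset
    intro g hg
    simp only [Set.mem_ofPred_eq, not_lt] at hg ⊢
    exact Real.rpow_le_rpow_of_nonpos (NN_pos κ hκ g.1 g.2) hg.le (by linarith)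
  have hcont : Continuous (fun g : NN κ => ((g : G4) : Matrix (Fin 4) (Fin 4) ℝ) 0 0) := by
    have h1 : Continuous (fun g : NN κ => ((g : G4) : Matrix (Fin 4) (Fin 4) ℝ)) :=
      Units.continuous_val.comp continuous_subtype_val
    exact (continuous_apply 0).comp ((continuous_apply 0).comp h1)
  have hopen : IsOpen {g : NN κ | ((g : G4) : Matrix (Fin 4) (Fin 4) ℝ) 0 0 < 2} :=
    isOpen_lt hcont continuous_const
  apply discreteTopology_of_isOpen_singleton_one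
  have hfin2 : ({g : NN κ | ((g : G4) : Matrix (Fin 4) (Fin 4) ℝ) 0 0 < 2} \ {1}).Finite :=
    hfin.subset Set.sdiff_subset
  have : ({1} : Set (NN κ)) = {g : NN κ | ((g : G4) : Matrix (Fin 4) (Fin 4) ℝ) 0 0 < 2} \
      ({g : NN κ | ((g : G4) : Matrix (Fin 4) (Fin 4) ℝ) 0 0 < 2} \ {1}) := by
    ext g
    simp only [Set.mem_singleton_iff, Set.mem_sdiff, Set.mem_ofPred_eq, not_and, not_not]
    constructor
    · rintro rfl
      simp
    · rintro ⟨h1, h2⟩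
      exact h2 h1
  rw [this]
  exact hopen.sdiff hfin2.isClosed

end Pool.Agent.H63.Cee
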