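import Mathlib
import Pool.Agent.H63.Cee.Summ

set_option autoImplicit false
open Matrix

namespace Pool.Agent.H63.Cee

/-- Lorentz form -/
def frm (x y : Fin 4 → ℝ) : ℝ := -(x 0 * y 0) + x 1 * y 1 + x 2 * y 2 + x 3 * y 3

lemma frm_eq (x y : Fin 4 → ℝ) : x ⬝ᵥ (J *ᵥ y) = frm x y := by
  simp [frm, J, Matrix.mulVec_diagonal, dotProduct, Fin.sum_univ_four]

lemma exists_emb (x : Fin 4 → ℝ) (hx : frm x x = -1) (hx0 : 0 < x 0) :
    ∃ (z : ℂ) (h : ℝ), 0 < h ∧ x = emb z h := by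
  unfold frm at hx
  have h1 : 0 < x 0 - x 3 := by nlinarith [sq_nonneg (x 1), sq_nonneg (x 2)]
  refine ⟨⟨x 1 / (x 0 - x 3), x 2 / (x 0 - x 3)⟩, 1 / (x 0 - x 3), by positivity, ?_⟩
  have h2 : x 1 ^ 2 + x 2 ^ 2 + 1 = (x 0 - x 3) * (x 0 + x 3) := by linarith
  have h3 : x 0 + x 3 = (x 1 ^ 2 + x 2 ^ 2 + 1) / (x 0 - x 3) := by
    field_simp; linarith
  ext i
  fin_cases i
  · simp [emb]
    field_simp
    nlinarith
  · simp [emb]
    field_simp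
  · simp [emb]
    field_simp
  · simp [emb]
    field_simp
    nlinarith

lemma frm_refl (v y : Fin 4 → ℝ) : (refl v *ᵥ y) 0 = y 0 - 2 * frm v y * v 0 := by
  simp [refl, frm, Matrix.mulVec, dotProduct, Fin.sum_univ_four]
  ring

lemma frm_nrm_emb (c z : ℂ) (ρ h : ℝ) (hρ : 0 < ρ) (hh : 0 < h) :
    frm (nrm c ρ) (emb z h) = (ρ ^ 2 - dsq c z h) / (2 * ρ * h) := by
  simp only [frm, nrm, emb, dsq, Matrix.cons_val]
  field_simp
  ring

lemma frm_y_refl (v y : Fin 4 → ℝ) : frm y (refl v *ᵥ y) = frm y y - 2 * (frm v y) ^ 2 := by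
  simp [refl, frm, Matrix.mulVec, dotProduct, Fin.sum_univ_four]
  ring

lemma frm_emb_self (z : ℂ) (h : ℝ) (hh : 0 < h) : frm (emb z h) (emb z h) = -1 := by
  simp only [frm, emb, Matrix.cons_val]
  field_simp
  ring

lemma frm_trans_emb (z : ℂ) (h : ℝ) (hh : 0 < h) :
    -(frm (emb z h) (trans (lat 0 1 0) *ᵥ emb z h)) = 1 + 1 / (2 * h ^ 2) := by
  rw [trans_emb _ _ _ hh.ne']
  simp [frm, emb, lat]
  field_simp
  ring

lemma frm_invariant (κ : ℝ) (hκ : 0 < κ) (g : G4) (hg : g ∈ NN κ) (x y : Fin 4 → ℝ) :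
    frm ((g : Matrix (Fin 4) (Fin 4) ℝ) *ᵥ x) ((g : Matrix (Fin 4) (Fin 4) ℝ) *ᵥ y) = frm x y := by
  have h1 := NN_form κ hκ g hg
  rw [← frm_eq, ← frm_eq]
  rw [Matrix.mulVec_mulVec, ← Matrix.vecMul_transpose, ← Matrix.dotProduct_mulVec,
    Matrix.mulVec_mulVec, ← Matrix.mul_assoc, h1]

/-- near every point at height at most one there is a mirror -/
lemma near_mirror (κ : ℝ) (hκ : 0 < κ) (hκ2 : κ ≤ 1 / 2) (z : ℂ) (h : ℝ) (hh : 0 < h)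
    (hh1 : h ≤ 1) : ∃ B ∈ BB κ, -(4 + 17 / κ) ≤ frm (nrm B.1 B.2) (emb z h) := by
  obtain ⟨n, hn1, hn2⟩ := exists_nat_pow_near_of_lt_one hh hh1 (by norm_num : (0:ℝ) < 1 / 2)
    (by norm_num)
  obtain ⟨q, hq, hq1, hq2⟩ := F_cover κ hκ hκ2 n z
  have hqB : q ∈ BB κ := Set.mem_iUnion.2 ⟨_, hq⟩
  refine ⟨q, hqB, ?_⟩
  have hr := BB_radius κ hκ q hqB
  rw [frm_nrm_emb _ _ _ _ hr.1 hh]
  have hp : (0:ℝ) < 2 ^ n := by positivity
  set w : ℝ := 1 / 2 ^ n with hw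
  have hw0 : 0 < w := by positivity
  have e1 : ((1:ℝ) / 2) ^ n = w := by rw [hw, one_div, one_div, inv_pow]
  rw [pow_succ, e1] at hn1
  rw [e1] at hn2
  have e2 : κ / 2 / 2 ^ n = κ / 2 * w := by rw [hw]; ring
  have e3 : (2:ℝ) / 2 ^ n = 2 * w := by rw [hw]; ring
  rw [e2] at hq1
  rw [e3] at hq2
  have h1 : dsq q.1 z h ≤ (q.2 + 2 * w) ^ 2 + h ^ 2 := by
    have h2 : dsq q.1 z h = ‖z - q.1‖ ^ 2 + h ^ 2 := by
      rw [dsq, ← Complex.normSq_eq_norm_sq, Complex.normSq_apply]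
      simp only [Complex.sub_re, Complex.sub_im]
      ring
    rw [h2]
    have := pow_le_pow_left₀ (norm_nonneg _) hq2 2
    linarith
  -- w ≤ 2h, h ≤ w ≤ 2 q.2/κ
  have hw2 : w ≤ 2 * h := by linarith
  have hhq : h ≤ 2 * q.2 / κ := by
    rw [le_div_iff₀ hκ]
    nlinarith
  rw [neg_le, ← neg_div, div_le_iff₀ (by positivity [hr.1])]
  have h3 : -(q.2 ^ 2 - dsq q.1 z h) ≤ 4 * q.2 * w + 4 * w ^ 2 + h ^ 2 := by nlinarith
  have h4 : 4 * q.2 * w + 4 * w ^ 2 + h ^ 2 ≤ 8 * q.2 * h + 17 * h ^ 2 := by nlinarith [hr.1]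
  have h5 : 17 * h ^ 2 ≤ 17 * h * (2 * q.2 / κ) := by nlinarith
  have h6 : (4 + 17 / κ) * (2 * q.2 * h) = 8 * q.2 * h + 17 * h * (2 * q.2 / κ) := by
    field_simp
    ring
  linarith

theorem inj_radius (κ : ℝ) (hκ : 0 < κ) (hκ2 : κ ≤ 1 / 2) :
    ∃ R : ℝ, ∀ x : Fin 4 → ℝ, x ⬝ᵥ (J *ᵥ x) = -1 → 0 < x 0 →
      ∃ g ∈ NN κ, g ≠ 1 ∧ -(x ⬝ᵥ (J *ᵥ ((g : Matrix (Fin 4) (Fin 4) ℝ) *ᵥ x))) ≤ R := by
  refine ⟨1 + 2 * (4 + 17 / κ) ^ 2, ?_⟩
  intro x hx hx0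
  rw [frm_eq] at hx
  obtain ⟨z0, h0, hh0, rfl⟩ := exists_emb x hx hx0
  -- almost minimal height coordinate
  let S : Set ℝ := {r | ∃ k ∈ NN κ, r = ((k : Matrix (Fin 4) (Fin 4) ℝ) *ᵥ emb z0 h0) 0}
  have hSne : S.Nonempty := ⟨_, 1, one_mem _, rfl⟩
  have hSbdd : BddBelow S := by
    refine ⟨0, ?_⟩
    rintro r ⟨k, hk, rfl⟩
    obtain ⟨z', h', hh', e⟩ := NN_emb κ hκ k hk z0 h0 hh0
    rw [e]
    exact (emb_zero_pos z' h' hh').le
  obtain ⟨r, ⟨k, hk, rfl⟩, hr⟩ := exists_lt_of_csInf_lt hSne (lt_add_of_pos_right (sInf S) two_pos)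
  obtain ⟨z, h, hh, e⟩ := NN_emb κ hκ k hk z0 h0 hh0
  have hmin : ∀ k' ∈ NN κ, ((k : Matrix (Fin 4) (Fin 4) ℝ) *ᵥ emb z0 h0) 0 - 2
      < ((k' : Matrix (Fin 4) (Fin 4) ℝ) *ᵥ emb z h) 0 := by
    intro k' hk'
    have h1 : sInf S ≤ ((k' : Matrix (Fin 4) (Fin 4) ℝ) *ᵥ emb z h) 0 := by
      apply csInf_le hSbdd
      refine ⟨k' * k, mul_mem hk' hk, ?_⟩
      rw [Units.val_mul, ← Matrix.mulVec_mulVec, e]
    linarith
  rw [e] at hmin
  -- it is enough to move y = emb z h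
  have key : ∀ g' ∈ NN κ, g' ≠ 1 →
      -(frm (emb z h) ((g' : Matrix (Fin 4) (Fin 4) ℝ) *ᵥ emb z h)) ≤ 1 + 2 * (4 + 17 / κ) ^ 2 →
      ∃ g ∈ NN κ, g ≠ 1 ∧ -(emb z0 h0 ⬝ᵥ (J *ᵥ ((g : Matrix (Fin 4) (Fin 4) ℝ) *ᵥ emb z0 h0)))
        ≤ 1 + 2 * (4 + 17 / κ) ^ 2 := by
    intro g' hg' hne hle
    refine ⟨k⁻¹ * g' * k, mul_mem (mul_mem (inv_mem hk) hg') hk, ?_, ?_⟩
    · intro h1
      apply hne
      have : g' = k * (k⁻¹ * g' * k) * k⁻¹ := by group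
      rw [this, h1]
      group
    · rw [frm_eq, ← frm_invariant κ hκ k hk, e]
      have h2 : (k : Matrix (Fin 4) (Fin 4) ℝ) *ᵥ (((k⁻¹ * g' * k : G4) : Matrix (Fin 4) (Fin 4) ℝ) *ᵥ
          emb z0 h0) = (g' : Matrix (Fin 4) (Fin 4) ℝ) *ᵥ emb z h := by
        rw [Matrix.mulVec_mulVec, ← Units.val_mul]
        have : k * (k⁻¹ * g' * k) = g' * k := by group
        rw [this, Units.val_mul, ← Matrix.mulVec_mulVec, e]
      rw [h2]
      exact hle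
  rcases le_or_gt h 1 with hh1 | hh1
  · obtain ⟨B, hB, hBf⟩ := near_mirror κ hκ hκ2 z h hh hh1
    have hr' := BB_radius κ hκ B hB
    have h3 := hmin (reflG B) (reflG_mem κ B hB)
    rw [reflG_val B hr'.1.ne', frm_refl] at h3
    have hv0 : 1 ≤ nrm B.1 B.2 0 := by
      simp only [nrm, Matrix.cons_val_zero]
      rw [le_div_iff₀ (by linarith [hr'.1])]
      nlinarith [sq_nonneg B.1.re, sq_nonneg B.1.im]
    have h4 : frm (nrm B.1 B.2) (emb z h) < 1 := by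
      by_contra hcon
      rw [not_lt] at hcon
      nlinarith
    apply key (reflG B) (reflG_mem κ B hB)
    · intro h1
      have h2 := congrArg (fun g : G4 => (g : Matrix (Fin 4) (Fin 4) ℝ) 0 0) h1
      simp only [reflG_val B hr'.1.ne', Units.val_one, Matrix.one_apply_eq] at h2
      have h5 : refl (nrm B.1 B.2) 0 0 = 1 + 2 * nrm B.1 B.2 0 * nrm B.1 B.2 0 := rfl
      rw [h5] at h2
      nlinarith
    · rw [reflG_val B hr'.1.ne', frm_y_refl, frm_emb_self z h hh]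
      have h6 : (1:ℝ) ≤ 4 + 17 / κ := by
        have : 0 < 17 / κ := by positivity
        linarith
      have h7 : frm (nrm B.1 B.2) (emb z h) ^ 2 ≤ (4 + 17 / κ) ^ 2 := by
        apply sq_le_sq'
        · exact hBf
        · linarith
      linarith
  · apply key (transG (lat 0 1 0)) (transG_mem κ 1 0)
    · intro h1
      have h2 := congrArg (fun g : G4 => (g : Matrix (Fin 4) (Fin 4) ℝ) 0 1) h1
      simp [transG_val, trans, lat] at h2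
    · rw [transG_val, frm_trans_emb z h hh]
      have h6 : (1:ℝ) ≤ 4 + 17 / κ := by
        have : 0 < 17 / κ := by positivity
        linarith
      have h7 : 1 / (2 * h ^ 2) ≤ 1 := by
        rw [div_le_one (by positivity)]
        nlinarith
      nlinarith

end Pool.Agent.H63.Cee
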