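import Mathlib
import Pool.Agent.H63.Cee.Summ

set_option autoImplicit false
open Matrix

namespace Pool.Agent.H63.Cee

/-- the base disc -/
noncomputable def B0 (κ : ℝ) : ℂ × ℝ := (0, κ / 2)

/-- the special words -/
noncomputable def sw (κ : ℝ) : List (ℤ × ℤ) → G4
  | [] => 1
  | (p :: t) => transG (lat 0 p.1 p.2) * (reflG (B0 κ) * sw κ t)

/-- their points -/
noncomputable def pt (κ : ℝ) : List (ℤ × ℤ) → ℂ × ℝ
  | [] => (0, 1)
  | (p :: t) => (invZ 0 (κ / 2) (pt κ t).1 (pt κ t).2 + lat 0 p.1 p.2,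
      invH 0 (κ / 2) (pt κ t).1 (pt κ t).2)

lemma B0_mem (κ : ℝ) : B0 κ ∈ BB κ := by
  have := BB_base κ 0 0
  rwa [lat_zero] at this

lemma sw_mem (κ : ℝ) (t : List (ℤ × ℤ)) : sw κ t ∈ NN κ := by
  induction t with
  | nil => exact one_mem _
  | cons p t ih =>
    rw [sw]
    exact mul_mem (transG_mem κ p.1 p.2) (mul_mem (reflG_mem κ _ (B0_mem κ)) ih)

lemma pt_pos (κ : ℝ) (hκ : 0 < κ) (t : List (ℤ × ℤ)) : 0 < (pt κ t).2 := by
  induction t with
  | nil => simp [pt]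
  | cons p t ih =>
    rw [pt]
    exact invH_pos _ _ _ _ (by positivity) ih

lemma sw_emb (κ : ℝ) (hκ : 0 < κ) (t : List (ℤ × ℤ)) :
    (sw κ t : Matrix (Fin 4) (Fin 4) ℝ) *ᵥ emb 0 1 = emb (pt κ t).1 (pt κ t).2 := by
  induction t with
  | nil => simp [pt, sw]
  | cons p t ih =>
    have h1 := pt_pos κ hκ t
    rw [sw, pt, Units.val_mul, Units.val_mul, ← Matrix.mulVec_mulVec, ← Matrix.mulVec_mulVec, ih,
      reflG_val (B0 κ) (by simp [B0]; exact hκ.ne')]
    have e : nrm (B0 κ).1 (B0 κ).2 = nrm 0 (κ / 2) := rfl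
    rw [e, refl_emb 0 (κ / 2) _ _ (by positivity) h1, transG_val,
      trans_emb _ _ _ (invH_pos _ _ _ _ (by positivity) h1).ne']

lemma lat_inj (p q : ℤ × ℤ) (h : lat 0 p.1 p.2 = lat 0 q.1 q.2) : p = q := by
  have h2 := congrArg Complex.re h
  have h3 := congrArg Complex.im h
  simp [lat] at h2 h3
  exact Prod.ext h2 h3

lemma pt_outside (κ : ℝ) (hκ : 0 < κ) (hκ2 : κ ≤ 1 / 2) (t : List (ℤ × ℤ))
    (ht : ∀ p ∈ t, p ≠ (0, 0)) : (κ / 2) ^ 2 < dsq 0 (pt κ t).1 (pt κ t).2 := by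
  induction t with
  | nil =>
    simp only [pt]
    exact outside_start κ hκ hκ2 (B0 κ) (B0_mem κ)
  | cons p t ih =>
    have h1 := pt_pos κ hκ t
    have h2 := ih (fun q hq => ht q (List.mem_cons_of_mem _ hq))
    have h3 := inv_inside (B0 κ) (by simp [B0]; exact hκ) (pt κ t).1 (pt κ t).2 h1 h2
    have h4 : dsq (lat 0 p.1 p.2) (pt κ (p :: t)).1 (pt κ (p :: t)).2 < (κ / 2) ^ 2 := by
      rw [pt]
      simp only
      have := dsq_cov 0 (invZ 0 (κ / 2) (pt κ t).1 (pt κ t).2) (lat 0 p.1 p.2)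
        (invH 0 (κ / 2) (pt κ t).1 (pt κ t).2)
      rw [zero_add] at this
      rw [this]
      exact h3
    have h5 := outside_of_inside κ hκ hκ2 (lat 0 p.1 p.2, κ / 2) (B0 κ) (BB_base κ p.1 p.2)
      (B0_mem κ) (by
        intro h
        have h6 := congrArg Prod.fst h
        simp only [B0] at h6
        rw [← lat_zero] at h6
        exact ht p List.mem_cons_self (lat_inj (0, 0) p h6).symm)
      (pt κ (p :: t)).1 (pt κ (p :: t)).2 (pt_pos κ hκ (p :: t)) h4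
    exact h5

lemma pt_inside (κ : ℝ) (hκ : 0 < κ) (hκ2 : κ ≤ 1 / 2) (p : ℤ × ℤ) (t : List (ℤ × ℤ))
    (ht : ∀ q ∈ t, q ≠ (0, 0)) :
    dsq (lat 0 p.1 p.2) (pt κ (p :: t)).1 (pt κ (p :: t)).2 < (κ / 2) ^ 2 := by
  have h1 := pt_pos κ hκ t
  have h2 := pt_outside κ hκ hκ2 t ht
  have h3 := inv_inside (B0 κ) (by simp [B0]; exact hκ) (pt κ t).1 (pt κ t).2 h1 h2
  rw [pt]
  simp only
  have := dsq_cov 0 (invZ 0 (κ / 2) (pt κ t).1 (pt κ t).2) (lat 0 p.1 p.2)
    (invH 0 (κ / 2) (pt κ t).1 (pt κ t).2)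
  rw [zero_add] at this
  rw [this]
  exact h3

lemma emb_inj (z z' : ℂ) (h h' : ℝ) (hh : 0 < h) (hh' : 0 < h') (e : emb z h = emb z' h') :
    z = z' ∧ h = h' := by
  have e0 := congrFun e 0
  have e1 := congrFun e 1
  have e2 := congrFun e 2
  have e3 := congrFun e 3
  simp only [emb, Matrix.cons_val] at e0 e1 e2 e3
  have e4 : 1 / h = 1 / h' := by
    have a1 : 1 / h = (1 + (z.re ^ 2 + z.im ^ 2) + h ^ 2) / (2 * h)
      - ((z.re ^ 2 + z.im ^ 2) + h ^ 2 - 1) / (2 * h) := by field_simp; ring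
    have a2 : 1 / h' = (1 + (z'.re ^ 2 + z'.im ^ 2) + h' ^ 2) / (2 * h')
      - ((z'.re ^ 2 + z'.im ^ 2) + h' ^ 2 - 1) / (2 * h') := by field_simp; ring
    rw [a1, a2, e0, e3]
  have e5 : h = h' := by
    have := congrArg (fun x => 1 / x) e4
    simpa using this
  subst e5
  refine ⟨?_, rfl⟩
  apply Complex.ext
  · field_simp at e1; exact e1
  · field_simp at e2; exact e2

lemma sw_inj (κ : ℝ) (hκ : 0 < κ) (hκ2 : κ ≤ 1 / 2) (t t' : List (ℤ × ℤ))
    (ht : ∀ q ∈ t, q ≠ (0, 0)) (ht' : ∀ q ∈ t', q ≠ (0, 0)) (e : sw κ t = sw κ t') : t = t' := by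
  have hpt : ∀ s s' : List (ℤ × ℤ), sw κ s = sw κ s' → pt κ s = pt κ s' := by
    intro s s' h
    have h1 := sw_emb κ hκ s
    have h2 := sw_emb κ hκ s'
    rw [h, h2] at h1
    obtain ⟨h3, h4⟩ := emb_inj _ _ _ _ (pt_pos κ hκ s') (pt_pos κ hκ s) h1
    exact (Prod.ext h3 h4).symm
  induction t generalizing t' with
  | nil =>
    cases t' with
    | nil => rfl
    | cons p t' =>
      exfalso
      have h1 := hpt _ _ e
      have h2 := pt_inside κ hκ hκ2 p t' (fun q hq => ht' q (List.mem_cons_of_mem _ hq))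
      rw [← h1] at h2
      have h3 := outside_start κ hκ hκ2 (lat 0 p.1 p.2, κ / 2) (BB_base κ p.1 p.2)
      simp only [pt] at h2 h3
      linarith
  | cons p t ih =>
    cases t' with
    | nil =>
      exfalso
      have h1 := hpt _ _ e
      have h2 := pt_inside κ hκ hκ2 p t (fun q hq => ht q (List.mem_cons_of_mem _ hq))
      rw [h1] at h2
      have h3 := outside_start κ hκ hκ2 (lat 0 p.1 p.2, κ / 2) (BB_base κ p.1 p.2)
      simp only [pt] at h2 h3
      linarith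
    | cons p' t' =>
      have h1 := hpt _ _ e
      have h2 := pt_inside κ hκ hκ2 p t (fun q hq => ht q (List.mem_cons_of_mem _ hq))
      have h3 := pt_inside κ hκ hκ2 p' t' (fun q hq => ht' q (List.mem_cons_of_mem _ hq))
      rw [← h1] at h3
      have hpp : p = p' := by
        by_contra hne
        have h5 := outside_of_inside κ hκ hκ2 (lat 0 p.1 p.2, κ / 2) (lat 0 p'.1 p'.2, κ / 2)
          (BB_base κ p.1 p.2) (BB_base κ p'.1 p'.2) (by
            intro h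
            have h6 := congrArg Prod.fst h
            exact hne (lat_inj p' p h6).symm)
          (pt κ (p :: t)).1 (pt κ (p :: t)).2 (pt_pos κ hκ (p :: t)) h2
        simp only at h5
        linarith
      subst hpp
      have h4 : sw κ t = sw κ t' := by
        rw [sw, sw] at e
        exact mul_left_cancel (mul_left_cancel e)
      rw [ih t' (fun q hq => ht q (List.mem_cons_of_mem _ hq))
        (fun q hq => ht' q (List.mem_cons_of_mem _ hq)) h4]

/-- cost of a letter -/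
noncomputable def cost (κ : ℝ) (p : ℤ × ℤ) : ℝ := 8 / κ ^ 2 * (1 + (p.1 : ℝ) ^ 2 + (p.2 : ℝ) ^ 2)

lemma cost_pos (κ : ℝ) (hκ : 0 < κ) (p : ℤ × ℤ) : 0 < cost κ p := by
  unfold cost; positivity

lemma inv_entry (κ : ℝ) (hκ : 0 < κ) (hκ2 : κ ≤ 1 / 2) (z : ℂ) (h : ℝ) (hh : 0 < h) :
    emb (invZ 0 (κ / 2) z h) (invH 0 (κ / 2) z h) 0 ≤ 4 / κ ^ 2 * emb z h 0 := by
  have hD := dsq_pos 0 z h hh
  have h1 := dsq_inv 0 (κ / 2) z h hh
  have hH := invH_pos 0 (κ / 2) z h (by positivity) hh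
  have e1 : emb (invZ 0 (κ / 2) z h) (invH 0 (κ / 2) z h) 0
      = (1 + dsq 0 (invZ 0 (κ / 2) z h) (invH 0 (κ / 2) z h)) / (2 * invH 0 (κ / 2) z h) := by
    simp only [emb, dsq, Matrix.cons_val_zero, Complex.zero_re, Complex.zero_im, sub_zero]
    rw [add_assoc]
  have e2 : emb z h 0 = (1 + dsq 0 z h) / (2 * h) := by
    simp only [emb, dsq, Matrix.cons_val_zero, Complex.zero_re, Complex.zero_im, sub_zero]
    rw [add_assoc]
  rw [e1, h1, e2]
  unfold invH
  have e3 : (1 + (κ / 2) ^ 4 / dsq 0 z h) / (2 * ((κ / 2) ^ 2 * h / dsq 0 z h))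
      = 4 / κ ^ 2 * ((dsq 0 z h + (κ / 2) ^ 4) / (2 * h)) := by
    field_simp
    ring
  rw [e3]
  apply mul_le_mul_of_nonneg_left _ (by positivity)
  apply div_le_div_of_nonneg_right _ (by positivity)
  have : (κ / 2) ^ 4 ≤ 1 := pow_le_one₀ (by positivity) (by linarith)
  linarith

lemma trans_entry (z : ℂ) (h : ℝ) (hh : 0 < h) (a b : ℤ) :
    emb (z + lat 0 a b) h 0 ≤ 2 * (1 + (a : ℝ) ^ 2 + (b : ℝ) ^ 2) * emb z h 0 := by
  rw [emb_zero_eq]
  simp only [emb, Matrix.cons_val_zero]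
  rw [← mul_div_assoc]
  apply div_le_div_of_nonneg_right _ (by positivity)
  nlinarith [sq_nonneg (z.re - a), sq_nonneg (z.im - b), sq_nonneg ((a:ℝ) * z.re),
    sq_nonneg ((a:ℝ) * z.im), sq_nonneg ((b:ℝ) * z.re), sq_nonneg ((b:ℝ) * z.im),
    sq_nonneg ((a:ℝ) * h), sq_nonneg ((b:ℝ) * h), sq_nonneg h, sq_nonneg z.re, sq_nonneg z.im,
    sq_nonneg (a:ℝ), sq_nonneg (b:ℝ)]

/-- product of the costs -/
noncomputable def pcost (κ s : ℝ) (T : Finset (ℤ × ℤ)) : List (ℤ × ℤ) → ENNReal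
  | [] => 1
  | (p :: t) => (if p ∈ T then ENNReal.ofReal (cost κ p ^ (-s)) else 0) * pcost κ s T t

lemma pcost_le (κ s : ℝ) (hκ : 0 < κ) (hκ2 : κ ≤ 1 / 2) (hs : 0 < s) (T : Finset (ℤ × ℤ))
    (t : List (ℤ × ℤ)) :
    pcost κ s T t ≤ ENNReal.ofReal ((emb (pt κ t).1 (pt κ t).2 0) ^ (-s)) := by
  induction t with
  | nil =>
    simp only [pcost, pt, emb_base]
    simp
  | cons p t ih =>
    rw [pcost]
    by_cases hp : p ∈ T
    · rw [if_pos hp]
      refine le_trans (mul_le_mul_right ih _) ?_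
      have hc := cost_pos κ hκ p
      have h1 := pt_pos κ hκ t
      have h2 := emb_zero_pos (pt κ t).1 (pt κ t).2 h1
      have h3 := emb_zero_pos (pt κ (p :: t)).1 (pt κ (p :: t)).2 (pt_pos κ hκ (p :: t))
      rw [← ENNReal.ofReal_mul (by positivity), ← Real.mul_rpow hc.le h2.le]
      apply ENNReal.ofReal_le_ofReal
      apply Real.rpow_le_rpow_of_nonpos h3
      · rw [pt]
        simp only
        refine le_trans (trans_entry _ _ (invH_pos _ _ _ _ (by positivity) h1) _ _) ?_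
        refine le_trans (mul_le_mul_of_nonneg_left (inv_entry κ hκ hκ2 _ _ h1) (by positivity)) ?_
        unfold cost
        apply le_of_eq
        ring
      · linarith
    · rw [if_neg hp, zero_mul]
      exact bot_le

lemma pcost_zero (κ s : ℝ) (T : Finset (ℤ × ℤ)) (t : List (ℤ × ℤ)) (ht : ¬ ∀ p ∈ t, p ∈ T) :
    pcost κ s T t = 0 := by
  induction t with
  | nil => simp at ht
  | cons p t ih =>
    rw [pcost]
    by_cases hp : p ∈ T
    · have : ¬ ∀ q ∈ t, q ∈ T := by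
        intro h
        apply ht
        intro q hq
        rcases List.mem_cons.1 hq with rfl | h2
        · exact hp
        · exact h q h2
      rw [ih this, mul_zero]
    · rw [if_neg hp, zero_mul]

lemma pcost_top (κ s : ℝ) (T : Finset (ℤ × ℤ))
    (hT : 1 ≤ ∑ p ∈ T, ENNReal.ofReal (cost κ p ^ (-s))) :
    ∑' t : List (ℤ × ℤ), pcost κ s T t = ⊤ := by
  by_contra hne
  have h1 := tsum_list (pcost κ s T)
  simp only [pcost] at h1
  simp_rw [ENNReal.tsum_mul_left] at h1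
  rw [ENNReal.tsum_mul_right] at h1
  have h2 : ∑' p : ℤ × ℤ, (if p ∈ T then ENNReal.ofReal (cost κ p ^ (-s)) else 0)
      = ∑ p ∈ T, ENNReal.ofReal (cost κ p ^ (-s)) := by
    rw [tsum_eq_sum (s := T)]
    · apply Finset.sum_congr rfl
      intro p hp
      rw [if_pos hp]
    · intro p hp
      rw [if_neg hp]
  rw [h2] at h1
  set S := ∑' t : List (ℤ × ℤ), pcost κ s T t with hS
  have h3 : 1 + S ≤ S := by
    calc 1 + S ≤ 1 + (∑ p ∈ T, ENNReal.ofReal (cost κ p ^ (-s))) * S := by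
          gcongr
          calc S = 1 * S := (one_mul S).symm
            _ ≤ _ := mul_le_mul_left hT S
      _ = S := h1.symm
  have h4 : S < 1 + S := by
    rw [add_comm]
    exact ENNReal.lt_add_right hne one_ne_zero
  exact absurd h3 (not_le.2 h4)

theorem NN_not_summable (κ s : ℝ) (hκ : 0 < κ) (hκ2 : κ ≤ 1 / 2) (hs : 0 < s)
    (T : Finset (ℤ × ℤ)) (hT0 : ∀ p ∈ T, p ≠ (0, 0))
    (hT : 1 ≤ ∑ p ∈ T, ENNReal.ofReal (cost κ p ^ (-s))) :
    ¬ Summable (fun g : NN κ => ((g : G4) : Matrix (Fin 4) (Fin 4) ℝ) 0 0 ^ (-s)) := by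
  intro hsum
  have h1 : ∑' g : NN κ, ENNReal.ofReal (((g : G4) : Matrix (Fin 4) (Fin 4) ℝ) 0 0 ^ (-s)) ≠ ⊤ := by
    exact hsum.tsum_ofReal_ne_top
  apply h1
  rw [eq_top_iff, ← pcost_top κ s T hT]
  let G : Set (List (ℤ × ℤ)) := {t | ∀ p ∈ t, p ∈ T}
  have h2 : ∑' t : List (ℤ × ℤ), pcost κ s T t = ∑' t : G, pcost κ s T t := by
    rw [tsum_subtype]
    apply tsum_congr
    intro t
    by_cases ht : t ∈ G
    · rw [Set.indicator_of_mem ht]
    · rw [Set.indicator_of_notMem ht]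
      exact pcost_zero κ s T t ht
  rw [h2]
  let Ψ : G → NN κ := fun t => ⟨sw κ t.1, sw_mem κ t.1⟩
  have hΨ : Function.Injective Ψ := by
    intro t t' h
    apply Subtype.ext
    exact sw_inj κ hκ hκ2 t.1 t'.1 (fun p hp => hT0 p (t.2 p hp)) (fun p hp => hT0 p (t'.2 p hp))
      (congrArg Subtype.val h)
  refine le_trans ?_ (ENNReal.tsum_comp_le_tsum_of_injective hΨ
    (fun g : NN κ => ENNReal.ofReal (((g : G4) : Matrix (Fin 4) (Fin 4) ℝ) 0 0 ^ (-s))))
  apply ENNReal.tsum_le_tsum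
  intro t
  refine le_trans (pcost_le κ s hκ hκ2 hs T t.1) ?_
  apply le_of_eq
  simp only [Ψ]
  rw [entry_eq, sw_emb κ hκ]

/-- a finite set with large sum -/
lemma exists_T (κ : ℝ) (hκ : 0 < κ) : ∃ T : Finset (ℤ × ℤ), (∀ p ∈ T, p ≠ (0, 0)) ∧
    1 < ∑ p ∈ T, (cost κ p)⁻¹ := by
  have h1 : Filter.Tendsto (fun n : ℕ => κ ^ 2 / 24 * ∑ i ∈ Finset.range n, (1 / ((i:ℝ) + 1)))
      Filter.atTop Filter.atTop :=
    Filter.Tendsto.const_mul_atTop (by positivity) Real.tendsto_sum_range_one_div_nat_succ_atTop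
  obtain ⟨n, hn⟩ := (h1.eventually (Filter.eventually_gt_atTop 1)).exists
  let f : (Σ _ : ℕ, ℕ) → ℤ × ℤ := fun q => ((q.1 : ℤ) + 1, (q.2 : ℤ) + 1)
  have hf : Function.Injective f := by
    rintro ⟨a, b⟩ ⟨c, d⟩ h
    have h1 := congrArg Prod.fst h
    have h2 := congrArg Prod.snd h
    simp only [f, add_left_inj, Nat.cast_inj] at h1 h2
    subst h1; subst h2; rfl
  refine ⟨((Finset.range n).sigma (fun i => Finset.range (i + 1))).map ⟨f, hf⟩, ?_, ?_⟩
  · intro p hp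
    rw [Finset.mem_map] at hp
    obtain ⟨q, _, rfl⟩ := hp
    intro h
    have h1 := congrArg Prod.fst h
    simp only [Function.Embedding.coeFn_mk, f] at h1
    omega
  · rw [Finset.sum_map, Finset.sum_sigma]
    refine lt_of_lt_of_le hn ?_
    rw [Finset.mul_sum]
    apply Finset.sum_le_sum
    intro i _
    have h2 : ∀ j ∈ Finset.range (i + 1), κ ^ 2 / 24 * (1 / ((i:ℝ) + 1)) / (i + 1)
        ≤ (cost κ ((⟨f, hf⟩ : (Σ _ : ℕ, ℕ) ↪ ℤ × ℤ) ⟨i, j⟩))⁻¹ := by
      intro j hj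
      have hj' : (j : ℝ) ≤ i := by
        have := Finset.mem_range.1 hj
        exact_mod_cast Nat.lt_succ_iff.1 this
      simp only [Function.Embedding.coeFn_mk, f, cost]
      push_cast
      have hi : (0:ℝ) ≤ i := Nat.cast_nonneg i
      have hj0 : (0:ℝ) ≤ j := Nat.cast_nonneg j
      have e1 : κ ^ 2 / 24 * (1 / ((i:ℝ) + 1)) / (i + 1) = (24 * (i + 1) ^ 2 / κ ^ 2)⁻¹ := by
        field_simp
      rw [e1]
      apply inv_anti₀ (by positivity)
      rw [div_mul_eq_mul_div]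
      apply div_le_div_of_nonneg_right _ (by positivity)
      nlinarith
    have h3 := Finset.sum_le_sum h2
    rw [Finset.sum_const, Finset.card_range, nsmul_eq_mul] at h3
    refine le_trans (le_of_eq ?_) h3
    have hi : (0:ℝ) < (i:ℝ) + 1 := by positivity
    push_cast
    field_simp

theorem exists_not_summable (κ : ℝ) (hκ : 0 < κ) (hκ2 : κ ≤ 1 / 2) : ∃ s : ℝ, 1 < s ∧
    ¬ Summable (fun g : NN κ => ((g : G4) : Matrix (Fin 4) (Fin 4) ℝ) 0 0 ^ (-s)) := by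
  obtain ⟨T, hT0, hT⟩ := exists_T κ hκ
  have hcont : ContinuousAt (fun s : ℝ => ∑ p ∈ T, (cost κ p) ^ (-s)) 1 := by
    apply tendsto_finsetSum
    intro p _
    have h1 : ContinuousAt (fun s : ℝ => cost κ p ^ (-s)) 1 := by
      apply ContinuousAt.rpow continuousAt_const continuousAt_neg
      exact Or.inl (cost_pos κ hκ p).ne'
    exact h1
  have h1 : (1:ℝ) < (fun s : ℝ => ∑ p ∈ T, (cost κ p) ^ (-s)) 1 := by
    simp only [Real.rpow_neg_one]
    exact hT
  have h2 := hcont.eventually (lt_mem_nhds h1)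
  obtain ⟨s, hs1, hs2⟩ := (((h2.filter_mono nhdsWithin_le_nhds).and
    (self_mem_nhdsWithin : Set.Ioi (1:ℝ) ∈ nhdsWithin 1 (Set.Ioi 1)))).exists
  refine ⟨s, hs2, ?_⟩
  have hs2' : (1:ℝ) < s := hs2
  apply NN_not_summable κ s hκ hκ2 (by linarith) T hT0
  rw [← ENNReal.ofReal_sum_of_nonneg]
  · rw [ENNReal.one_le_ofReal]
    exact hs1.le
  · intro p _
    exact Real.rpow_nonneg (cost_pos κ hκ p).le _

end Pool.Agent.H63.Cee
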